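import Mathlib

/-!
Definitions for the tree substitution language problem MP_4eb715_lc.
-/

namespace MP4eb715

/-- `T_Σ`: ground trees over the ranked alphabet `S` with rank map `rk`; a node labelled `a` has
exactly `rk a` children. -/
inductive GTree {S : Type} (rk : S → ℕ) : Type
  | node (a : S) (c : Fin (rk a) → GTree rk) : GTree rk

/-- `T_Σ(Σ)`: trees in which a leaf may carry any symbol (of rank zero or of positive rank); an
inner node labelled `a` (so `rk a ≠ 0`) has exactly `rk a` children. -/
inductive Frag {S : Type} (rk : S → ℕ) : Type
  | leaf (a : S) : Frag rk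
  | node (a : S) (h : rk a ≠ 0) (c : Fin (rk a) → Frag rk) : Frag rk

variable {S : Type} {rk : S → ℕ}

/-- The label of the root. -/
def Frag.root : Frag rk → S
  | .leaf a => a
  | .node a _ _ => a

/-- The inclusion of `T_Σ` in `T_Σ(Σ)`. -/
def GTree.toFrag : GTree rk → Frag rk
  | .node a c => if h : rk a = 0 then .leaf a else .node a h (fun i => (c i).toFrag)

/-- One rewriting step `ξ ⇒ ζ`: a leaf of `ξ` labelled by the root label of a fragment `f ∈ F` is
replaced by `f`. -/
inductive Step (F : Set (Frag rk)) : Frag rk → Frag rk → Prop
  | root (f : Frag rk) (hf : f ∈ F) : Step F (.leaf f.root) f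
  | child (a : S) (h : rk a ≠ 0) (c : Fin (rk a) → Frag rk) (i : Fin (rk a)) (t : Frag rk)
      (ht : Step F (c i) t) : Step F (.node a h c) (.node a h (Function.update c i t))

/-- A tree substitution grammar over the ranked alphabet: a set of root labels, and a finite set
of fragments, none of which is a single-node tree. -/
structure TSG {S : Type} (rk : S → ℕ) where
  /-- the root labels -/
  R : Set S
  /-- the fragments -/
  F : Set (Frag rk)
  finite : F.Finite
  notSingle : ∀ f ∈ F, ∀ a, f ≠ .leaf a

/-- The ground trees derivable from a single node whose label is a root label. -/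
def TSG.lang (G : TSG rk) : Set (GTree rk) :=
  {t | ∃ a ∈ G.R, Relation.ReflTransGen (Step G.F) (.leaf a) t.toFrag}

/-- Tree substitution languages. -/
def IsTSL (L : Set (GTree rk)) : Prop := ∃ G : TSG rk, L = G.lang

/-- An input: (ranks of the symbols, transitions, final states). The alphabet consists of the
numbers below the length of the first list, a transition is a triple
(symbol, states of the children, state of the node). -/
abbrev Code := List ℕ × List (ℕ × List ℕ × ℕ) × List ℕ

/-- The rank map of the alphabet of a code. -/
def arity (c : Code) (a : Fin c.1.length) : ℕ := c.1.get a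

/-- `Run c t q`: the bottom-up nondeterministic tree automaton `c` can reach the state `q` at the
root of `t`. -/
inductive Run (c : Code) : GTree (arity c) → ℕ → Prop
  | node (a : Fin c.1.length) (t : Fin (arity c a) → GTree (arity c)) (qs : List ℕ) (q : ℕ)
      (htr : ((a : ℕ), qs, q) ∈ c.2.1) (hlen : qs.length = arity c a)
      (h : ∀ i : Fin (arity c a), Run c (t i) (qs.get (i.cast hlen.symm))) :
      Run c (.node a t) q

/-- The regular tree language accepted by the automaton. -/
def lang (c : Code) : Set (GTree (arity c)) := {t | ∃ q ∈ c.2.2, Run c t q}

end MP4eb715
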