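import Pool.Agent.MP4eb715.Theory

/-!
Grammar side.
-/

namespace MP4eb715

variable {S : Type} {rk : S → ℕ} {P Q B : Type}

/-- `Gen F f t`: the ground tree `t` is obtained from `f` by rewriting with `F`. -/
inductive Gen (F : Set (Frag rk)) : Frag rk → GTree rk → Prop
  | nul (a : S) (h : rk a = 0) (c : Fin (rk a) → GTree rk) : Gen F (.leaf a) (.node a c)
  | cut (f : Frag rk) (hf : f ∈ F) (t : GTree rk) (h : Gen F f t) : Gen F (.leaf f.root) t
  | node (a : S) (h : rk a ≠ 0) (c : Fin (rk a) → Frag rk) (c' : Fin (rk a) → GTree rk)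
      (hc : ∀ i, Gen F (c i) (c' i)) : Gen F (.node a h c) (.node a c')

theorem steps_child {F : Set (Frag rk)} (a : S) (h : rk a ≠ 0) (c : Fin (rk a) → Frag rk)
    (i : Fin (rk a)) (t : Frag rk) (ht : Relation.ReflTransGen (Step F) (c i) t) :
    Relation.ReflTransGen (Step F) (.node a h c) (.node a h (Function.update c i t)) := by
  induction ht with
  | refl => rw [Function.update_eq_self]
  | @tail b d _ hbd ih =>
    refine ih.tail ?_
    have := Step.child a h (Function.update c i b) i d (by simpa using hbd)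
    simpa using this

theorem steps_children {F : Set (Frag rk)} (a : S) (h : rk a ≠ 0) (c c' : Fin (rk a) → Frag rk)
    (hs : ∀ i, Relation.ReflTransGen (Step F) (c i) (c' i)) :
    Relation.ReflTransGen (Step F) (.node a h c) (.node a h c') := by
  classical
  have key : ∀ s : Finset (Fin (rk a)), Relation.ReflTransGen (Step F) (.node a h c)
      (.node a h (fun i => if i ∈ s then c' i else c i)) := by
    intro s
    induction s using Finset.induction_on with
    | empty => simpa using Relation.ReflTransGen.refl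
    | insert j s hj ih =>
      refine ih.trans ?_
      have h1 := steps_child (F := F) a h (fun i => if i ∈ s then c' i else c i) j (c' j)
        (by simpa [hj] using hs j)
      have h2 : Function.update (fun i => if i ∈ s then c' i else c i) j (c' j) =
          (fun i => if i ∈ insert j s then c' i else c i) := by
        funext i
        by_cases hij : i = j
        · subst hij; simp
        · simp [hij]
      rw [h2] at h1
      exact h1
  simpa using key Finset.univ

theorem steps_of_gen {F : Set (Frag rk)} {f : Frag rk} {t : GTree rk} (h : Gen F f t) :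
    Relation.ReflTransGen (Step F) f t.toFrag := by
  induction h with
  | nul a h c =>
    rw [GTree.toFrag, dif_pos h]
  | cut f hf t _ ih => exact Relation.ReflTransGen.head (Step.root f hf) ih
  | node a h c c' _ ih =>
    rw [GTree.toFrag, dif_neg h]
    exact steps_children a h _ _ ih

theorem gen_self {F : Set (Frag rk)} (t : GTree rk) : Gen F t.toFrag t := by
  induction t with
  | node a c ih =>
    rw [GTree.toFrag]
    split_ifs with h
    · exact Gen.nul a h c
    · exact Gen.node a h _ _ ih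

theorem gen_node_inv {F : Set (Frag rk)} {a : S} {h : rk a ≠ 0} {c : Fin (rk a) → Frag rk}
    {t : GTree rk} (hg : Gen F (.node a h c) t) : ∃ c', t = .node a c' ∧ ∀ i, Gen F (c i) (c' i) := by
  cases hg with
  | node a h c c' hc => exact ⟨c', rfl, hc⟩

theorem gen_of_step {F : Set (Frag rk)} {f f' : Frag rk} (hs : Step F f f') :
    ∀ {t : GTree rk}, Gen F f' t → Gen F f t := by
  induction hs with
  | root f hf => intro t h; exact Gen.cut f hf t h
  | child a h c i s _ ih =>
    intro t hg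
    obtain ⟨c', rfl, hc'⟩ := gen_node_inv hg
    refine Gen.node a h _ _ fun j => ?_
    by_cases hj : j = i
    · subst hj
      apply ih
      simpa using hc' j
    · simpa [Function.update_of_ne hj] using hc' j

theorem gen_of_steps {F : Set (Frag rk)} {f : Frag rk} {t : GTree rk}
    (hs : Relation.ReflTransGen (Step F) f t.toFrag) : Gen F f t := by
  induction hs using Relation.ReflTransGen.head_induction_on with
  | refl => exact gen_self t
  | head h _ ih => exact gen_of_step h ih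

theorem mem_lang_iff (G : TSG rk) (t : GTree rk) :
    t ∈ G.lang ↔ ∃ a ∈ G.R, Gen G.F (.leaf a) t := by
  constructor
  · rintro ⟨a, ha, h⟩
    exact ⟨a, ha, gen_of_steps h⟩
  · rintro ⟨a, ha, h⟩
    exact ⟨a, ha, steps_of_gen h⟩

/-- Height bound. -/
def HtLt : Frag rk → ℕ → Prop
  | .leaf _ => fun j => 0 < j
  | .node _ _ c => fun j => ∃ j', j = j' + 1 ∧ ∀ i, HtLt (c i) j'

theorem HtLt_mono (f : Frag rk) : ∀ {j k : ℕ}, HtLt f j → j ≤ k → HtLt f k := by
  induction f with
  | leaf a => intro j k h hjk; exact lt_of_lt_of_le h hjk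
  | node a h c ih =>
    intro j k h hjk
    obtain ⟨j', rfl, hj'⟩ := h
    exact ⟨k - 1, by omega, fun i => ih i (hj' i) (by omega)⟩

theorem exists_HtLt (f : Frag rk) : ∃ j, HtLt f j := by
  induction f with
  | leaf a => exact ⟨1, Nat.one_pos⟩
  | node a h c ih =>
    choose j hj using ih
    exact ⟨Finset.univ.sup j + 1, _, rfl,
      fun i => HtLt_mono _ (hj i) (Finset.le_sup (f := j) (Finset.mem_univ i))⟩

theorem finite_HtLt [Finite S] (j : ℕ) : {f : Frag rk | HtLt f j}.Finite := by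
  induction j with
  | zero =>
    convert Set.finite_empty
    ext f
    simp only [Set.mem_ofPred_eq, Set.mem_empty_iff_false, iff_false]
    intro h
    cases f with
    | leaf a => exact absurd h (lt_irrefl 0)
    | node a h' c => obtain ⟨j', h1, -⟩ := h; omega
  | succ j ih =>
    have h1 : {f : Frag rk | HtLt f (j + 1)} ⊆ (Set.range (fun a : S => (Frag.leaf a : Frag rk))) ∪
        ⋃ a : S, ⋃ h : rk a ≠ 0, (fun c => Frag.node a h c) ''
          {c : Fin (rk a) → Frag rk | ∀ i, c i ∈ {f : Frag rk | HtLt f j}} := by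
      intro f hf
      cases f with
      | leaf a => exact Or.inl ⟨a, rfl⟩
      | node a h c =>
        obtain ⟨j', h1, h2⟩ := hf
        obtain rfl : j = j' := by omega
        refine Or.inr ?_
        simp only [Set.mem_iUnion]
        exact ⟨a, h, c, h2, rfl⟩
    refine Set.Finite.subset ?_ h1
    refine (Set.finite_range _).union ?_
    refine Set.finite_iUnion fun a => ?_
    refine Set.finite_iUnion fun h => ?_
    refine Set.Finite.image _ ?_
    exact Set.Finite.pi' fun _ => ih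

section
variable (δ : (a : S) → (Fin (rk a) → P) → P) (ρ : P → S) (inQ : Q → P → Prop)

/-- Values of the instances of a fragment. -/
def E (κ : Q) : Frag rk → Set P
  | .leaf a => {p | inQ κ p ∧ ρ p = a}
  | .node a _ c => {p | ∃ ps : Fin (rk a) → P, (∀ i, ps i ∈ E κ (c i)) ∧ p = δ a ps}

/-- The maximal fragment set of height less than `N`. -/
def FF (κ : Q) (N : ℕ) : Set (Frag rk) :=
  {f | (∀ a, f ≠ .leaf a) ∧ HtLt f N ∧ ∀ p ∈ E δ ρ inQ κ f, inQ κ p}

end

section
variable {δ : (a : S) → (Fin (rk a) → P) → P} {ρ : P → S} {inQ : Q → P → Prop}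

theorem root_val (hρ : ∀ a ps, ρ (δ a ps) = a) {F : Set (Frag rk)} {f : Frag rk} {t : GTree rk}
    (h : Gen F f t) : ρ (val δ t) = f.root := by
  induction h with
  | nul a h c => simp [val, hρ, Frag.root]
  | cut f hf t _ ih => rw [ih]; rfl
  | node a h c c' _ ih => simp [val, hρ, Frag.root]

theorem Y_of_gen {κ : Q} {N : ℕ}
    (mkQ : Set P → Q) (hmkQ : ∀ s p, inQ (mkQ s) p ↔ p ∈ s)
    (hnul : ∀ a, rk a = 0 → ∀ p, ρ p = a → (inQ κ p ↔ ∀ ps, p = δ a ps))
    (hρ : ∀ a ps, ρ (δ a ps) = a)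
    (t : GTree rk) : ∀ (g : Frag rk) (j : ℕ) (o : Q), j ≤ N → HtLt g j →
      (∀ p ∈ E δ ρ inQ κ g, inQ o p) → Gen (FF δ ρ inQ κ N) g t → Y δ ρ inQ κ N t o j := by
  induction t with
  | node a c ih =>
    intro g j o hjN hg ho hgen
    -- the general node case
    have hnode : ∀ (h : rk a ≠ 0) (c' : Fin (rk a) → Frag rk) (j : ℕ) (o : Q), j ≤ N →
        HtLt (Frag.node a h c') j → (∀ p ∈ E δ ρ inQ κ (Frag.node a h c'), inQ o p) →
        (∀ i, Gen (FF δ ρ inQ κ N) (c' i) (c i)) →
        ∃ j', j = j' + 1 ∧ ∃ os : Fin (rk a) → Q, Imp δ inQ a os o ∧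
          ∀ i, Y δ ρ inQ κ N (c i) (os i) j' := by
      intro h c' j o hjN hg ho hgen
      obtain ⟨j', rfl, hj'⟩ := hg
      refine ⟨j', rfl, fun i => mkQ (E δ ρ inQ κ (c' i)), ?_, ?_⟩
      · intro ps hps
        apply ho
        exact ⟨ps, fun i => (hmkQ _ _).1 (hps i), rfl⟩
      · intro i
        exact ih i (c' i) j' _ (by omega) (hj' i) (fun p hp => (hmkQ _ _).2 hp) (hgen i)
    generalize hT : GTree.node a c = T at hgen
    cases hgen with
    | nul b hb d =>
      injection hT with h1 h2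
      subst h1
      have hj : 0 < j := hg
      obtain ⟨j', rfl⟩ : ∃ j', j = j' + 1 := ⟨j - 1, by omega⟩
      refine ⟨j', rfl, Or.inl ⟨⟨N - 1, by omega, fun _ => κ, ?_, ?_⟩, ?_⟩⟩
      · intro ps _
        rw [hnul a hb _ (hρ _ _)]
        intro ps'
        congr 1
        funext i
        exact absurd i.2 (by omega)
      · intro i
        exact absurd i.2 (by omega)
      · intro p hp hpa
        exact ho p ⟨hp, hpa⟩
    | cut f hf t h =>
      subst hT
      cases f with
      | leaf b => exact absurd rfl (hf.1 b)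
      | node b hb c' =>
        obtain ⟨c'', h1, h2⟩ := gen_node_inv h
        injection h1 with h3 h4
        subst h3
        have h5 := eq_of_heq h4
        subst h5
        have hj : 0 < j := hg
        obtain ⟨j', rfl⟩ : ∃ j', j = j' + 1 := ⟨j - 1, by omega⟩
        obtain ⟨N', hN', os, h6, h7⟩ := hnode hb c' N κ le_rfl hf.2.1 hf.2.2 h2
        refine ⟨j', rfl, Or.inl ⟨⟨N', hN', os, h6, h7⟩, ?_⟩⟩
        intro p hp hpa
        exact ho p ⟨hp, hpa⟩
    | node b hb c' d hc =>
      injection hT with h1 h2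
      subst h1
      have h3 := eq_of_heq h2
      subst h3
      obtain ⟨j', hj', os, h6, h7⟩ := hnode hb c' j o hjN hg ho hc
      exact ⟨j', hj', Or.inr ⟨os, h6, h7⟩⟩

theorem gen_of_Y {κ : Q} {N : ℕ}
    (hnul : ∀ a, rk a = 0 → ∀ p, ρ p = a → (inQ κ p ↔ ∀ ps, p = δ a ps))
    (t : GTree rk) : ∀ (j : ℕ) (o : Q), Y δ ρ inQ κ N t o j →
      ∃ g : Frag rk, HtLt g j ∧ (∀ p ∈ E δ ρ inQ κ g, inQ o p) ∧ Gen (FF δ ρ inQ κ N) g t := by
  induction t with
  | node a c ih =>
    intro j o h
    obtain ⟨j', rfl, h⟩ := h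
    by_cases ha : rk a = 0
    · refine ⟨.leaf a, Nat.succ_pos _, ?_, Gen.nul a ha c⟩
      rintro p ⟨hp, hpa⟩
      rcases h with ⟨-, h2⟩ | ⟨os, h1, h2⟩
      · exact h2 p hp hpa
      · have h3 := (hnul a ha p hpa).1 hp
        have h4 := h1 (fun _ => p) (fun i => absurd i.2 (by omega))
        rwa [← h3] at h4
    · -- node case
      have hnode : ∀ (j : ℕ) (o : Q) (os : Fin (rk a) → Q), Imp δ inQ a os o →
          (∀ i, Y δ ρ inQ κ N (c i) (os i) j) → ∃ g : Fin (rk a) → Frag rk,
            (∀ i, HtLt (g i) j) ∧ (∀ p ∈ E δ ρ inQ κ (.node a ha g), inQ o p) ∧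
            ∀ i, Gen (FF δ ρ inQ κ N) (g i) (c i) := by
        intro j o os h1 h2
        choose g hg1 hg2 hg3 using fun i => ih i j (os i) (h2 i)
        refine ⟨g, hg1, ?_, hg3⟩
        rintro p ⟨ps, hps, rfl⟩
        exact h1 ps fun i => hg2 i _ (hps i)
      rcases h with ⟨⟨N', rfl, os, h1, h2⟩, h3⟩ | ⟨os, h1, h2⟩
      · obtain ⟨g, hg1, hg2, hg3⟩ := hnode N' κ os h1 h2
        refine ⟨.leaf a, Nat.succ_pos _, ?_, ?_⟩
        · rintro p ⟨hp, hpa⟩
          exact h3 p hp hpa
        · have hF : Frag.node a ha g ∈ FF δ ρ inQ κ (N' + 1) :=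
            ⟨fun b hb => (nomatch hb), ⟨N', rfl, hg1⟩, hg2⟩
          exact Gen.cut (.node a ha g) hF _ (Gen.node a ha g c hg3)
      · obtain ⟨g, hg1, hg2, hg3⟩ := hnode j' o os h1 h2
        exact ⟨.node a ha g, ⟨j', rfl, hg1⟩, hg2, Gen.node a ha g c hg3⟩

theorem gen_leaf_iff {κ : Q} {N : ℕ} (hN : 0 < N)
    (mkQ : Set P → Q) (hmkQ : ∀ s p, inQ (mkQ s) p ↔ p ∈ s)
    (hnul : ∀ a, rk a = 0 → ∀ p, ρ p = a → (inQ κ p ↔ ∀ ps, p = δ a ps))
    (hρ : ∀ a ps, ρ (δ a ps) = a) (t : GTree rk) :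
    Gen (FF δ ρ inQ κ N) (.leaf (ρ (val δ t))) t ↔ Y δ ρ inQ κ N t κ N := by
  constructor
  · intro h
    exact Y_of_gen mkQ hmkQ hnul hρ t (.leaf (ρ (val δ t))) N κ le_rfl hN (fun p hp => hp.1) h
  · intro h
    obtain ⟨g, h1, h2, h3⟩ := gen_of_Y hnul t N κ h
    rw [root_val hρ h3]
    cases g with
    | leaf a => exact h3
    | node a ha c =>
      have hF : Frag.node a ha c ∈ FF δ ρ inQ κ N := ⟨fun b hb => (nomatch hb), h1, h2⟩
      exact Gen.cut (.node a ha c) hF _ h3

theorem val_mem_of_gen {κ : Q} {N : ℕ}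
    (hnul : ∀ a, rk a = 0 → ∀ p, ρ p = a → (inQ κ p ↔ ∀ ps, p = δ a ps))
    (hρ : ∀ a ps, ρ (δ a ps) = a) {f : Frag rk} {t : GTree rk}
    (h : Gen (FF δ ρ inQ κ N) f t) : val δ t ∈ E δ ρ inQ κ f := by
  induction h with
  | nul a h c =>
    refine ⟨?_, hρ _ _⟩
    rw [val, hnul a h _ (hρ _ _)]
    intro ps
    congr 1
    funext i
    exact absurd i.2 (by omega)
  | cut f hf t h ih => exact ⟨hf.2.2 _ ih, root_val hρ h⟩
  | node a h c c' _ ih => exact ⟨_, ih, rfl⟩

/-- Main characterisation. -/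
theorem isTSL_iff [Finite S] [Finite P] [Finite B] {inB : B → Q → Prop}
    (mkQ : Set P → Q) (hmkQ : ∀ s p, inQ (mkQ s) p ↔ p ∈ s)
    (mkB : Set Q → B) (hmkB : ∀ s o, inB (mkB s) o ↔ o ∈ s)
    (hρ : ∀ a ps, ρ (δ a ps) = a) (Acc : P → Prop) :
    IsTSL {t : GTree rk | Acc (val δ t)} ↔
      ∃ (κ : Q) (R : S → Prop) (C : P → B → Prop),
        (∀ p, inQ κ p → R (ρ p) → Acc p) ∧
        (∀ a, rk a = 0 → ∀ p, ρ p = a → (inQ κ p ↔ ∀ ps, p = δ a ps)) ∧
        Closed1 δ ρ inQ inB κ C ∧ Closed2 δ ρ inQ inB κ C ∧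
        (∀ p b, C p b → Acc p → R (ρ p) ∧ ¬ inB b κ) := by
  constructor
  · rintro ⟨G, hG⟩
    have hmem : ∀ t : GTree rk, Acc (val δ t) ↔ ρ (val δ t) ∈ G.R ∧
        Gen G.F (.leaf (ρ (val δ t))) t := by
      intro t
      have h1 : Acc (val δ t) ↔ t ∈ G.lang := by rw [← hG]; rfl
      rw [h1, mem_lang_iff]
      constructor
      · rintro ⟨a, ha, h⟩
        have := root_val hρ h
        rw [this]
        exact ⟨ha, h⟩
      · rintro ⟨ha, h⟩
        exact ⟨_, ha, h⟩
    let κ : Q := mkQ {p | ∃ s : GTree rk, val δ s = p ∧ Gen G.F (.leaf (ρ (val δ s))) s}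
    have hκ : ∀ p, inQ κ p ↔ ∃ s : GTree rk, val δ s = p ∧ Gen G.F (.leaf (ρ (val δ s))) s :=
      fun p => hmkQ _ _
    have hnul : ∀ a, rk a = 0 → ∀ p, ρ p = a → (inQ κ p ↔ ∀ ps, p = δ a ps) := by
      intro a ha p hp
      rw [hκ]
      constructor
      · rintro ⟨s, rfl, -⟩ ps
        cases s with
        | node b c =>
          have hb : b = a := by rw [← hp]; simp [val, hρ]
          subst hb
          rw [val]
          congr 1
          funext i
          exact absurd i.2 (by omega)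
      · intro h
        have i0 : Fin (rk a) → GTree rk := fun i => absurd i.2 (by omega)
        refine ⟨.node a i0, ?_, ?_⟩
        · rw [val]; exact (h _).symm
        · rw [val, hρ]; exact Gen.nul a ha i0
    -- values of instances
    have hE : ∀ f : Frag rk, ∀ p ∈ E δ ρ inQ κ f, ∃ s : GTree rk, val δ s = p ∧ Gen G.F f s := by
      intro f
      induction f with
      | leaf a =>
        rintro p ⟨hp, rfl⟩
        obtain ⟨s, rfl, hs⟩ := (hκ p).1 hp
        exact ⟨s, rfl, hs⟩
      | node a h c ih =>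
        rintro p ⟨ps, hps, rfl⟩
        choose s hs1 hs2 using fun i => ih i (ps i) (hps i)
        refine ⟨.node a s, ?_, Gen.node a h c s hs2⟩
        rw [val]
        congr 1
        funext i
        exact hs1 i
    -- bound
    obtain ⟨N0, hN0⟩ : ∃ N0, ∀ f ∈ G.F, HtLt f N0 := by
      choose j hj using fun f : Frag rk => exists_HtLt f
      obtain ⟨M, hM⟩ := (G.finite.image j).bddAbove
      exact ⟨M, fun f hf => HtLt_mono f (hj f) (hM ⟨f, hf, rfl⟩)⟩
    have hFF : ∀ f ∈ G.F, f ∈ FF δ ρ inQ κ (N0 + 1) := by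
      intro f hf
      refine ⟨G.notSingle f hf, HtLt_mono f (hN0 f hf) (by omega), ?_⟩
      intro p hp
      obtain ⟨s, rfl, hs⟩ := hE f p hp
      rw [hκ]
      refine ⟨s, rfl, ?_⟩
      rw [root_val hρ hs]
      exact Gen.cut f hf s hs
    have hgen : ∀ (f : Frag rk) (t : GTree rk), Gen G.F f t → Gen (FF δ ρ inQ κ (N0 + 1)) f t := by
      intro f t h
      induction h with
      | nul a h c => exact Gen.nul a h c
      | cut f hf t _ ih => exact Gen.cut f (hFF f hf) t ih
      | node a h c c' _ ih => exact Gen.node a h c c' ih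
    refine ⟨κ, (· ∈ G.R), Real' δ ρ inQ inB κ, ?_, hnul, closed1_real κ, closed2_real κ, ?_⟩
    · intro p hp hR
      obtain ⟨s, rfl, hs⟩ := (hκ p).1 hp
      exact (hmem s).2 ⟨hR, hs⟩
    · intro p b hreal hacc
      obtain ⟨t, rfl, ht⟩ := hreal (N0 + 1)
      obtain ⟨h1, h2⟩ := (hmem t).1 hacc
      refine ⟨h1, fun hb => ht κ hb ?_⟩
      rw [← gen_leaf_iff (by omega) mkQ hmkQ hnul hρ t]
      exact hgen _ _ h2
  · rintro ⟨κ, R, C, h1, hnul, hC1, hC2, hC3⟩
    obtain ⟨N, K, hKN, hK⟩ := complete mkB hmkB hC1 hC2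
    have hsub : FF δ ρ inQ κ N ⊆ {f : Frag rk | HtLt f N} := fun f hf => hf.2.1
    refine ⟨⟨{a | R a}, FF δ ρ inQ κ N, (finite_HtLt N).subset hsub, fun f hf => hf.1⟩, ?_⟩
    ext t
    rw [mem_lang_iff]
    simp only [Set.mem_ofPred_eq]
    constructor
    · intro ht
      obtain ⟨h2, h3⟩ := hC3 _ _ (hK t) ht
      rw [hmkB] at h3
      have h4 : Y δ ρ inQ κ N t κ K := by simpa using h3
      have h5 : Y δ ρ inQ κ N t κ N := Y_mono t h4 hKN
      have hN : 0 < N := by
        rcases Nat.eq_zero_or_pos N with h | h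
        · subst h; exact absurd h5 (not_Y_zero t)
        · exact h
      exact ⟨_, h2, (gen_leaf_iff hN mkQ hmkQ hnul hρ t).2 h5⟩
    · rintro ⟨a, ha, h⟩
      have h2 := val_mem_of_gen hnul hρ h
      have h3 := root_val hρ h
      apply h1 _ h2.1
      rw [h3]
      exact ha

end

end MP4eb715
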