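import Pool.Agent.MP4eb715.Defs

/-!
The numerical form of the criterion; it is primitive recursive.
-/

namespace MP4eb715

/-! ### General closure lemmas -/

section
variable {α : Type} [Primcodable α]

theorem pr_pow {f g : α → ℕ} (hf : Primrec f) (hg : Primrec g) : Primrec fun x => f x ^ g x :=
  (Primrec₂.unpaired'.1 Nat.Primrec.pow).comp hf hg

theorem pr_all {b : α → ℕ} {p : α → ℕ → Prop} (hb : Primrec b)
    (hp : PrimrecPred fun x : α × ℕ => p x.1 x.2) : PrimrecPred fun x => ∀ i < b x, p x i := by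
  have h : PrimrecRel fun (i : ℕ) (x : α) => p x i := hp.comp (Primrec.snd.pair Primrec.fst)
  have h2 := (h.forall_mem_list).comp (Primrec.list_range.comp hb) Primrec.id
  exact h2.of_eq fun x => by simp

theorem pr_ex {b : α → ℕ} {p : α → ℕ → Prop} (hb : Primrec b)
    (hp : PrimrecPred fun x : α × ℕ => p x.1 x.2) : PrimrecPred fun x => ∃ i < b x, p x i := by
  have h : PrimrecRel fun (i : ℕ) (x : α) => p x i := hp.comp (Primrec.snd.pair Primrec.fst)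
  have h2 := (h.exists_mem_list).comp (Primrec.list_range.comp hb) Primrec.id
  exact h2.of_eq fun x => by simp

theorem pr_imp {p q : α → Prop} (hp : PrimrecPred p) (hq : PrimrecPred q) :
    PrimrecPred fun x => p x → q x :=
  (hp.not.or hq).of_eq fun x => by tauto

theorem pr_iff {p q : α → Prop} (hp : PrimrecPred p) (hq : PrimrecPred q) :
    PrimrecPred fun x => (p x ↔ q x) :=
  ((pr_imp hp hq).and (pr_imp hq hp)).of_eq fun x => by tauto

/-- The `i`-th binary digit of `m` is one. -/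
def bit (m i : ℕ) : Prop := m / 2 ^ i % 2 = 1

theorem pr_bit {f g : α → ℕ} (hf : Primrec f) (hg : Primrec g) :
    PrimrecPred fun x => bit (f x) (g x) :=
  Primrec.eq.comp (Primrec.nat_mod.comp (Primrec.nat_div.comp hf
    (pr_pow (Primrec.const 2) hg)) (Primrec.const 2)) (Primrec.const 1)

/-- The `i`-th digit of `m` in base `b`. -/
def dig (b m i : ℕ) : ℕ := m / b ^ i % b

theorem pr_dig {f g h : α → ℕ} (hf : Primrec f) (hg : Primrec g) (hh : Primrec h) :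
    Primrec fun x => dig (f x) (g x) (h x) :=
  Primrec.nat_mod.comp (Primrec.nat_div.comp hg (pr_pow hf hh)) hf

end

/-! ### The numerical predicates -/

/-- number of symbols -/
def nS (c : Code) : ℕ := c.1.length
/-- number of transitions -/
def nt (c : Code) : ℕ := c.2.1.length
/-- number of sets of transitions -/
def nM (c : Code) : ℕ := 2 ^ nt c
/-- number of states -/
def nP (c : Code) : ℕ := nS c * nM c
/-- number of obligations -/
def nQ (c : Code) : ℕ := 2 ^ nP c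
/-- number of sets of obligations -/
def nB (c : Code) : ℕ := 2 ^ nQ c
/-- rank -/
def rkN (c : Code) (a : ℕ) : ℕ := c.1.getD a 0
/-- transition -/
def tr (c : Code) (j : ℕ) : ℕ × List ℕ × ℕ := c.2.1.getD j (0, [], 0)

def App (c : Code) (a m j : ℕ) : Prop :=
  (tr c j).1 = a ∧ (tr c j).2.1.length = rkN c a ∧
    ∀ i < rkN c a, ∃ j' < nt c, bit (dig (nP c) m i % nM c) j' ∧
      (tr c j').2.2 = (tr c j).2.1.getD i 0

def Dl (c : Code) (a m p : ℕ) : Prop :=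
  p / nM c = a ∧ ∀ j < nt c, (bit (p % nM c) j ↔ App c a m j)

def ImpN (c : Code) (a mO o : ℕ) : Prop :=
  ∀ mp < nP c ^ rkN c a, (∀ i < rkN c a, bit (dig (nQ c) mO i) (dig (nP c) mp i)) →
    ∀ p < nP c, Dl c a mp p → bit o p

def HitN (c : Code) (a mB o : ℕ) : Prop :=
  ∀ mO < nQ c ^ rkN c a, ImpN c a mO o → ∃ i < rkN c a, bit (dig (nB c) mB i) (dig (nQ c) mO i)

def CutN (c : Code) (κ a o : ℕ) : Prop :=
  ∀ p < nP c, bit κ p → p / nM c = a → bit o p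

def OkN (c : Code) (κ a mB mG o : ℕ) : Prop :=
  HitN c a mG o ∧ (CutN c κ a o → HitN c a mB κ)

def BelowN (c : Code) (κ a mB mG b : ℕ) : Prop :=
  ∀ o < nQ c, bit b o → OkN c κ a mB mG o

def Closed1N (c : Code) (κ C : ℕ) : Prop :=
  ∀ a < nS c, ∀ mp < nP c ^ rkN c a, ∀ mB < nB c ^ rkN c a,
    (∀ i < rkN c a, bit C (dig (nP c) mp i * nB c + dig (nB c) mB i)) →
      ∀ b < nB c, BelowN c κ a mB mB b → ∀ p < nP c, Dl c a mp p → bit C (p * nB c + b)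

def StepWN (c : Code) (κ W p b g : ℕ) : Prop :=
  ∃ a < nS c, ∃ mp < nP c ^ rkN c a, ∃ mB < nB c ^ rkN c a, ∃ mG < nB c ^ rkN c a,
    (∀ i < rkN c a, bit W ((dig (nP c) mp i * nB c + dig (nB c) mB i) * nB c +
      dig (nB c) mG i)) ∧
    Dl c a mp p ∧ BelowN c κ a mB mB b ∧ BelowN c κ a mB mG g

def Closed2N (c : Code) (κ C : ℕ) : Prop :=
  ∀ W < 2 ^ (nP c * nB c * nB c),
    (∀ p < nP c, ∀ b < nB c, ∀ g < nB c, bit W ((p * nB c + b) * nB c + g) →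
      bit C (p * nB c + b) ∧ StepWN c κ W p b g) →
    ∀ p < nP c, ∀ b < nB c, ∀ g < nB c, bit W ((p * nB c + b) * nB c + g) →
      bit C (p * nB c + g)

def AccN (c : Code) (p : ℕ) : Prop :=
  ∃ j < nt c, bit (p % nM c) j ∧ ∃ k < c.2.2.length, c.2.2.getD k 0 = (tr c j).2.2

def TSLN (c : Code) : Prop :=
  ∃ κ < nQ c, ∃ R < 2 ^ nS c, ∃ C < 2 ^ (nP c * nB c),
    (∀ p < nP c, bit κ p → bit R (p / nM c) → AccN c p) ∧
    (∀ a < nS c, rkN c a = 0 → ∀ p < nP c, p / nM c = a → (bit κ p ↔ Dl c a 0 p)) ∧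
    Closed1N c κ C ∧ Closed2N c κ C ∧
    (∀ p < nP c, ∀ b < nB c, bit C (p * nB c + b) → AccN c p →
      bit R (p / nM c) ∧ ¬ bit b κ)

/-! ### Primitive recursiveness -/

section
variable {α : Type} [Primcodable α] {fc : α → Code}

theorem pr_nS (hc : Primrec fc) : Primrec fun x => nS (fc x) :=
  Primrec.list_length.comp (Primrec.fst.comp hc)

theorem pr_nt (hc : Primrec fc) : Primrec fun x => nt (fc x) :=
  Primrec.list_length.comp (Primrec.fst.comp (Primrec.snd.comp hc))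

theorem pr_nM (hc : Primrec fc) : Primrec fun x => nM (fc x) :=
  pr_pow (Primrec.const 2) (pr_nt hc)

theorem pr_nP (hc : Primrec fc) : Primrec fun x => nP (fc x) :=
  Primrec.nat_mul.comp (pr_nS hc) (pr_nM hc)

theorem pr_nQ (hc : Primrec fc) : Primrec fun x => nQ (fc x) :=
  pr_pow (Primrec.const 2) (pr_nP hc)

theorem pr_nB (hc : Primrec fc) : Primrec fun x => nB (fc x) :=
  pr_pow (Primrec.const 2) (pr_nQ hc)

theorem pr_rkN (hc : Primrec fc) {fa : α → ℕ} (ha : Primrec fa) :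
    Primrec fun x => rkN (fc x) (fa x) :=
  (Primrec.list_getD 0).comp (Primrec.fst.comp hc) ha

theorem pr_tr (hc : Primrec fc) {fa : α → ℕ} (ha : Primrec fa) :
    Primrec fun x => tr (fc x) (fa x) :=
  (Primrec.list_getD (0, [], 0)).comp (Primrec.fst.comp (Primrec.snd.comp hc)) ha

theorem pr_App (hc : Primrec fc) {fa fm fj : α → ℕ} (ha : Primrec fa) (hm : Primrec fm)
    (hj : Primrec fj) : PrimrecPred fun x => App (fc x) (fa x) (fm x) (fj x) := by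
  refine (Primrec.eq.comp (Primrec.fst.comp (pr_tr hc hj)) ha).and ?_
  refine (Primrec.eq.comp (Primrec.list_length.comp (Primrec.fst.comp (Primrec.snd.comp
    (pr_tr hc hj)))) (pr_rkN hc ha)).and ?_
  refine pr_all (pr_rkN hc ha) ?_
  have hc1 : Primrec fun x : α × ℕ => fc x.1 := hc.comp Primrec.fst
  have hm1 : Primrec fun x : α × ℕ => fm x.1 := hm.comp Primrec.fst
  have hj1 : Primrec fun x : α × ℕ => fj x.1 := hj.comp Primrec.fst
  refine pr_ex (pr_nt hc1) ?_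
  have hc2 : Primrec fun x : (α × ℕ) × ℕ => fc x.1.1 := hc1.comp Primrec.fst
  have hm2 : Primrec fun x : (α × ℕ) × ℕ => fm x.1.1 := hm1.comp Primrec.fst
  have hj2 : Primrec fun x : (α × ℕ) × ℕ => fj x.1.1 := hj1.comp Primrec.fst
  have hi2 : Primrec fun x : (α × ℕ) × ℕ => x.1.2 := Primrec.snd.comp Primrec.fst
  refine (pr_bit (Primrec.nat_mod.comp (pr_dig (pr_nP hc2) hm2 hi2) (pr_nM hc2))
    Primrec.snd).and ?_
  exact Primrec.eq.comp (Primrec.snd.comp (Primrec.snd.comp (pr_tr hc2 Primrec.snd)))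
    ((Primrec.list_getD 0).comp (Primrec.fst.comp (Primrec.snd.comp (pr_tr hc2 hj2))) hi2)

theorem pr_Dl (hc : Primrec fc) {fa fm fp : α → ℕ} (ha : Primrec fa) (hm : Primrec fm)
    (hp : Primrec fp) : PrimrecPred fun x => Dl (fc x) (fa x) (fm x) (fp x) := by
  refine (Primrec.eq.comp (Primrec.nat_div.comp hp (pr_nM hc)) ha).and ?_
  refine pr_all (pr_nt hc) ?_
  have hc1 : Primrec fun x : α × ℕ => fc x.1 := hc.comp Primrec.fst
  exact pr_iff (pr_bit (Primrec.nat_mod.comp (hp.comp Primrec.fst) (pr_nM hc1)) Primrec.snd)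
    (pr_App hc1 (ha.comp Primrec.fst) (hm.comp Primrec.fst) Primrec.snd)

theorem pr_ImpN (hc : Primrec fc) {fa fm fo : α → ℕ} (ha : Primrec fa) (hm : Primrec fm)
    (ho : Primrec fo) : PrimrecPred fun x => ImpN (fc x) (fa x) (fm x) (fo x) := by
  refine pr_all (pr_pow (pr_nP hc) (pr_rkN hc ha)) ?_
  have hc1 : Primrec fun x : α × ℕ => fc x.1 := hc.comp Primrec.fst
  have ha1 : Primrec fun x : α × ℕ => fa x.1 := ha.comp Primrec.fst
  have hm1 : Primrec fun x : α × ℕ => fm x.1 := hm.comp Primrec.fst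
  have ho1 : Primrec fun x : α × ℕ => fo x.1 := ho.comp Primrec.fst
  have hc2 : Primrec fun x : (α × ℕ) × ℕ => fc x.1.1 := hc1.comp Primrec.fst
  have ha2 : Primrec fun x : (α × ℕ) × ℕ => fa x.1.1 := ha1.comp Primrec.fst
  have hm2 : Primrec fun x : (α × ℕ) × ℕ => fm x.1.1 := hm1.comp Primrec.fst
  have ho2 : Primrec fun x : (α × ℕ) × ℕ => fo x.1.1 := ho1.comp Primrec.fst
  have hi2 : Primrec fun x : (α × ℕ) × ℕ => x.1.2 := Primrec.snd.comp Primrec.fst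
  refine pr_imp (pr_all (pr_rkN hc1 ha1) (pr_bit (pr_dig (pr_nQ hc2) hm2 Primrec.snd)
    (pr_dig (pr_nP hc2) hi2 Primrec.snd))) ?_
  refine pr_all (pr_nP hc1) ?_
  exact pr_imp (pr_Dl hc2 ha2 hi2 Primrec.snd) (pr_bit ho2 Primrec.snd)

theorem pr_HitN (hc : Primrec fc) {fa fm fo : α → ℕ} (ha : Primrec fa) (hm : Primrec fm)
    (ho : Primrec fo) : PrimrecPred fun x => HitN (fc x) (fa x) (fm x) (fo x) := by
  refine pr_all (pr_pow (pr_nQ hc) (pr_rkN hc ha)) ?_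
  have hc1 : Primrec fun x : α × ℕ => fc x.1 := hc.comp Primrec.fst
  have ha1 : Primrec fun x : α × ℕ => fa x.1 := ha.comp Primrec.fst
  have hm1 : Primrec fun x : α × ℕ => fm x.1 := hm.comp Primrec.fst
  have ho1 : Primrec fun x : α × ℕ => fo x.1 := ho.comp Primrec.fst
  have hc2 : Primrec fun x : (α × ℕ) × ℕ => fc x.1.1 := hc1.comp Primrec.fst
  have hm2 : Primrec fun x : (α × ℕ) × ℕ => fm x.1.1 := hm1.comp Primrec.fst
  have hi2 : Primrec fun x : (α × ℕ) × ℕ => x.1.2 := Primrec.snd.comp Primrec.fst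
  refine pr_imp (pr_ImpN hc1 ha1 Primrec.snd ho1) ?_
  exact pr_ex (pr_rkN hc1 ha1) (pr_bit (pr_dig (pr_nB hc2) hm2 Primrec.snd)
    (pr_dig (pr_nQ hc2) hi2 Primrec.snd))

theorem pr_CutN (hc : Primrec fc) {fk fa fo : α → ℕ} (hk : Primrec fk) (ha : Primrec fa)
    (ho : Primrec fo) : PrimrecPred fun x => CutN (fc x) (fk x) (fa x) (fo x) := by
  refine pr_all (pr_nP hc) ?_
  have hc1 : Primrec fun x : α × ℕ => fc x.1 := hc.comp Primrec.fst
  have ha1 : Primrec fun x : α × ℕ => fa x.1 := ha.comp Primrec.fst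
  have hk1 : Primrec fun x : α × ℕ => fk x.1 := hk.comp Primrec.fst
  have ho1 : Primrec fun x : α × ℕ => fo x.1 := ho.comp Primrec.fst
  exact pr_imp (pr_bit hk1 Primrec.snd) (pr_imp (Primrec.eq.comp
    (Primrec.nat_div.comp Primrec.snd (pr_nM hc1)) ha1) (pr_bit ho1 Primrec.snd))

theorem pr_OkN (hc : Primrec fc) {fk fa fb fg fo : α → ℕ} (hk : Primrec fk) (ha : Primrec fa)
    (hb : Primrec fb) (hg : Primrec fg) (ho : Primrec fo) :
    PrimrecPred fun x => OkN (fc x) (fk x) (fa x) (fb x) (fg x) (fo x) :=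
  (pr_HitN hc ha hg ho).and (pr_imp (pr_CutN hc hk ha ho) (pr_HitN hc ha hb hk))

theorem pr_BelowN (hc : Primrec fc) {fk fa fb fg fo : α → ℕ} (hk : Primrec fk) (ha : Primrec fa)
    (hb : Primrec fb) (hg : Primrec fg) (ho : Primrec fo) :
    PrimrecPred fun x => BelowN (fc x) (fk x) (fa x) (fb x) (fg x) (fo x) := by
  refine pr_all (pr_nQ hc) ?_
  exact pr_imp (pr_bit (ho.comp Primrec.fst) Primrec.snd) (pr_OkN (hc.comp Primrec.fst)
    (hk.comp Primrec.fst) (ha.comp Primrec.fst) (hb.comp Primrec.fst) (hg.comp Primrec.fst)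
    Primrec.snd)

theorem pr_Closed1N (hc : Primrec fc) {fk fC : α → ℕ} (hk : Primrec fk) (hC : Primrec fC) :
    PrimrecPred fun x => Closed1N (fc x) (fk x) (fC x) := by
  refine pr_all (pr_nS hc) ?_
  -- variable `a`
  have hc1 : Primrec fun x : α × ℕ => fc x.1 := hc.comp Primrec.fst
  have hk1 : Primrec fun x : α × ℕ => fk x.1 := hk.comp Primrec.fst
  have hC1 : Primrec fun x : α × ℕ => fC x.1 := hC.comp Primrec.fst
  have ha1 : Primrec fun x : α × ℕ => x.2 := Primrec.snd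
  refine pr_all (pr_pow (pr_nP hc1) (pr_rkN hc1 ha1)) ?_
  -- variable `mp`
  have hc2 : Primrec fun x : (α × ℕ) × ℕ => fc x.1.1 := hc1.comp Primrec.fst
  have hk2 : Primrec fun x : (α × ℕ) × ℕ => fk x.1.1 := hk1.comp Primrec.fst
  have hC2 : Primrec fun x : (α × ℕ) × ℕ => fC x.1.1 := hC1.comp Primrec.fst
  have ha2 : Primrec fun x : (α × ℕ) × ℕ => x.1.2 := ha1.comp Primrec.fst
  have hp2 : Primrec fun x : (α × ℕ) × ℕ => x.2 := Primrec.snd
  refine pr_all (pr_pow (pr_nB hc2) (pr_rkN hc2 ha2)) ?_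
  -- variable `mB`
  have hc3 : Primrec fun x : ((α × ℕ) × ℕ) × ℕ => fc x.1.1.1 := hc2.comp Primrec.fst
  have hk3 : Primrec fun x : ((α × ℕ) × ℕ) × ℕ => fk x.1.1.1 := hk2.comp Primrec.fst
  have hC3 : Primrec fun x : ((α × ℕ) × ℕ) × ℕ => fC x.1.1.1 := hC2.comp Primrec.fst
  have ha3 : Primrec fun x : ((α × ℕ) × ℕ) × ℕ => x.1.1.2 := ha2.comp Primrec.fst
  have hp3 : Primrec fun x : ((α × ℕ) × ℕ) × ℕ => x.1.2 := hp2.comp Primrec.fst
  have hB3 : Primrec fun x : ((α × ℕ) × ℕ) × ℕ => x.2 := Primrec.snd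
  refine pr_imp ?_ ?_
  · refine pr_all (pr_rkN hc3 ha3) ?_
    have hc4 := hc3.comp (Primrec.fst (α := ((α × ℕ) × ℕ) × ℕ) (β := ℕ))
    have hC4 := hC3.comp (Primrec.fst (α := ((α × ℕ) × ℕ) × ℕ) (β := ℕ))
    have hp4 := hp3.comp (Primrec.fst (α := ((α × ℕ) × ℕ) × ℕ) (β := ℕ))
    have hB4 := hB3.comp (Primrec.fst (α := ((α × ℕ) × ℕ) × ℕ) (β := ℕ))
    exact pr_bit hC4 (Primrec.nat_add.comp (Primrec.nat_mul.comp
      (pr_dig (pr_nP hc4) hp4 Primrec.snd) (pr_nB hc4)) (pr_dig (pr_nB hc4) hB4 Primrec.snd))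
  · refine pr_all (pr_nB hc3) ?_
    have hc4 := hc3.comp (Primrec.fst (α := ((α × ℕ) × ℕ) × ℕ) (β := ℕ))
    have hk4 := hk3.comp (Primrec.fst (α := ((α × ℕ) × ℕ) × ℕ) (β := ℕ))
    have hC4 := hC3.comp (Primrec.fst (α := ((α × ℕ) × ℕ) × ℕ) (β := ℕ))
    have ha4 := ha3.comp (Primrec.fst (α := ((α × ℕ) × ℕ) × ℕ) (β := ℕ))
    have hp4 := hp3.comp (Primrec.fst (α := ((α × ℕ) × ℕ) × ℕ) (β := ℕ))
    have hB4 := hB3.comp (Primrec.fst (α := ((α × ℕ) × ℕ) × ℕ) (β := ℕ))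
    have hb4 : Primrec fun x : (((α × ℕ) × ℕ) × ℕ) × ℕ => x.2 := Primrec.snd
    refine pr_imp (pr_BelowN hc4 hk4 ha4 hB4 hB4 hb4) ?_
    refine pr_all (pr_nP hc4) ?_
    have hc5 := hc4.comp (Primrec.fst (α := (((α × ℕ) × ℕ) × ℕ) × ℕ) (β := ℕ))
    have hC5 := hC4.comp (Primrec.fst (α := (((α × ℕ) × ℕ) × ℕ) × ℕ) (β := ℕ))
    have ha5 := ha4.comp (Primrec.fst (α := (((α × ℕ) × ℕ) × ℕ) × ℕ) (β := ℕ))
    have hp5 := hp4.comp (Primrec.fst (α := (((α × ℕ) × ℕ) × ℕ) × ℕ) (β := ℕ))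
    have hb5 := hb4.comp (Primrec.fst (α := (((α × ℕ) × ℕ) × ℕ) × ℕ) (β := ℕ))
    exact pr_imp (pr_Dl hc5 ha5 hp5 Primrec.snd) (pr_bit hC5
      (Primrec.nat_add.comp (Primrec.nat_mul.comp Primrec.snd (pr_nB hc5)) hb5))

theorem pr_StepWN (hc : Primrec fc) {fk fW fp fb fg : α → ℕ} (hk : Primrec fk) (hW : Primrec fW)
    (hp : Primrec fp) (hb : Primrec fb) (hg : Primrec fg) :
    PrimrecPred fun x => StepWN (fc x) (fk x) (fW x) (fp x) (fb x) (fg x) := by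
  refine pr_ex (pr_nS hc) ?_
  -- variable `a`
  have hc1 := hc.comp (Primrec.fst (α := α) (β := ℕ))
  have hk1 := hk.comp (Primrec.fst (α := α) (β := ℕ))
  have hW1 := hW.comp (Primrec.fst (α := α) (β := ℕ))
  have hp1 := hp.comp (Primrec.fst (α := α) (β := ℕ))
  have hb1 := hb.comp (Primrec.fst (α := α) (β := ℕ))
  have hg1 := hg.comp (Primrec.fst (α := α) (β := ℕ))
  have ha1 : Primrec fun x : α × ℕ => x.2 := Primrec.snd
  refine pr_ex (pr_pow (pr_nP hc1) (pr_rkN hc1 ha1)) ?_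
  -- variable `mp`
  have hc2 := hc1.comp (Primrec.fst (α := α × ℕ) (β := ℕ))
  have hk2 := hk1.comp (Primrec.fst (α := α × ℕ) (β := ℕ))
  have hW2 := hW1.comp (Primrec.fst (α := α × ℕ) (β := ℕ))
  have hp2 := hp1.comp (Primrec.fst (α := α × ℕ) (β := ℕ))
  have hb2 := hb1.comp (Primrec.fst (α := α × ℕ) (β := ℕ))
  have hg2 := hg1.comp (Primrec.fst (α := α × ℕ) (β := ℕ))
  have ha2 := ha1.comp (Primrec.fst (α := α × ℕ) (β := ℕ))
  have hmp2 : Primrec fun x : (α × ℕ) × ℕ => x.2 := Primrec.snd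
  refine pr_ex (pr_pow (pr_nB hc2) (pr_rkN hc2 ha2)) ?_
  -- variable `mB`
  have hc3 := hc2.comp (Primrec.fst (α := (α × ℕ) × ℕ) (β := ℕ))
  have hk3 := hk2.comp (Primrec.fst (α := (α × ℕ) × ℕ) (β := ℕ))
  have hW3 := hW2.comp (Primrec.fst (α := (α × ℕ) × ℕ) (β := ℕ))
  have hp3 := hp2.comp (Primrec.fst (α := (α × ℕ) × ℕ) (β := ℕ))
  have hb3 := hb2.comp (Primrec.fst (α := (α × ℕ) × ℕ) (β := ℕ))
  have hg3 := hg2.comp (Primrec.fst (α := (α × ℕ) × ℕ) (β := ℕ))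
  have ha3 := ha2.comp (Primrec.fst (α := (α × ℕ) × ℕ) (β := ℕ))
  have hmp3 := hmp2.comp (Primrec.fst (α := (α × ℕ) × ℕ) (β := ℕ))
  have hmB3 : Primrec fun x : ((α × ℕ) × ℕ) × ℕ => x.2 := Primrec.snd
  refine pr_ex (pr_pow (pr_nB hc3) (pr_rkN hc3 ha3)) ?_
  -- variable `mG`
  have hc4 := hc3.comp (Primrec.fst (α := ((α × ℕ) × ℕ) × ℕ) (β := ℕ))
  have hk4 := hk3.comp (Primrec.fst (α := ((α × ℕ) × ℕ) × ℕ) (β := ℕ))
  have hW4 := hW3.comp (Primrec.fst (α := ((α × ℕ) × ℕ) × ℕ) (β := ℕ))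
  have hp4 := hp3.comp (Primrec.fst (α := ((α × ℕ) × ℕ) × ℕ) (β := ℕ))
  have hb4 := hb3.comp (Primrec.fst (α := ((α × ℕ) × ℕ) × ℕ) (β := ℕ))
  have hg4 := hg3.comp (Primrec.fst (α := ((α × ℕ) × ℕ) × ℕ) (β := ℕ))
  have ha4 := ha3.comp (Primrec.fst (α := ((α × ℕ) × ℕ) × ℕ) (β := ℕ))
  have hmp4 := hmp3.comp (Primrec.fst (α := ((α × ℕ) × ℕ) × ℕ) (β := ℕ))
  have hmB4 := hmB3.comp (Primrec.fst (α := ((α × ℕ) × ℕ) × ℕ) (β := ℕ))
  have hmG4 : Primrec fun x : (((α × ℕ) × ℕ) × ℕ) × ℕ => x.2 := Primrec.snd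
  refine PrimrecPred.and ?_ (PrimrecPred.and (pr_Dl hc4 ha4 hmp4 hp4) (PrimrecPred.and
    (pr_BelowN hc4 hk4 ha4 hmB4 hmB4 hb4) (pr_BelowN hc4 hk4 ha4 hmB4 hmG4 hg4)))
  refine pr_all (pr_rkN hc4 ha4) ?_
  have hc5 := hc4.comp (Primrec.fst (α := (((α × ℕ) × ℕ) × ℕ) × ℕ) (β := ℕ))
  have hW5 := hW4.comp (Primrec.fst (α := (((α × ℕ) × ℕ) × ℕ) × ℕ) (β := ℕ))
  have hmp5 := hmp4.comp (Primrec.fst (α := (((α × ℕ) × ℕ) × ℕ) × ℕ) (β := ℕ))
  have hmB5 := hmB4.comp (Primrec.fst (α := (((α × ℕ) × ℕ) × ℕ) × ℕ) (β := ℕ))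
  have hmG5 := hmG4.comp (Primrec.fst (α := (((α × ℕ) × ℕ) × ℕ) × ℕ) (β := ℕ))
  exact pr_bit hW5 (Primrec.nat_add.comp (Primrec.nat_mul.comp (Primrec.nat_add.comp
    (Primrec.nat_mul.comp (pr_dig (pr_nP hc5) hmp5 Primrec.snd) (pr_nB hc5))
    (pr_dig (pr_nB hc5) hmB5 Primrec.snd)) (pr_nB hc5)) (pr_dig (pr_nB hc5) hmG5 Primrec.snd))

theorem pr_Closed2N (hc : Primrec fc) {fk fC : α → ℕ} (hk : Primrec fk) (hC : Primrec fC) :
    PrimrecPred fun x => Closed2N (fc x) (fk x) (fC x) := by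
  refine pr_all (pr_pow (Primrec.const 2) (Primrec.nat_mul.comp (Primrec.nat_mul.comp
    (pr_nP hc) (pr_nB hc)) (pr_nB hc))) ?_
  -- variable `W`
  have hc1 := hc.comp (Primrec.fst (α := α) (β := ℕ))
  have hk1 := hk.comp (Primrec.fst (α := α) (β := ℕ))
  have hC1 := hC.comp (Primrec.fst (α := α) (β := ℕ))
  have hW1 : Primrec fun x : α × ℕ => x.2 := Primrec.snd
  -- variable `p`
  have hc2 := hc1.comp (Primrec.fst (α := α × ℕ) (β := ℕ))
  have hk2 := hk1.comp (Primrec.fst (α := α × ℕ) (β := ℕ))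
  have hC2 := hC1.comp (Primrec.fst (α := α × ℕ) (β := ℕ))
  have hW2 := hW1.comp (Primrec.fst (α := α × ℕ) (β := ℕ))
  have hp2 : Primrec fun x : (α × ℕ) × ℕ => x.2 := Primrec.snd
  -- variable `b`
  have hc3 := hc2.comp (Primrec.fst (α := (α × ℕ) × ℕ) (β := ℕ))
  have hk3 := hk2.comp (Primrec.fst (α := (α × ℕ) × ℕ) (β := ℕ))
  have hC3 := hC2.comp (Primrec.fst (α := (α × ℕ) × ℕ) (β := ℕ))
  have hW3 := hW2.comp (Primrec.fst (α := (α × ℕ) × ℕ) (β := ℕ))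
  have hp3 := hp2.comp (Primrec.fst (α := (α × ℕ) × ℕ) (β := ℕ))
  have hb3 : Primrec fun x : ((α × ℕ) × ℕ) × ℕ => x.2 := Primrec.snd
  -- variable `g`
  have hc4 := hc3.comp (Primrec.fst (α := ((α × ℕ) × ℕ) × ℕ) (β := ℕ))
  have hk4 := hk3.comp (Primrec.fst (α := ((α × ℕ) × ℕ) × ℕ) (β := ℕ))
  have hC4 := hC3.comp (Primrec.fst (α := ((α × ℕ) × ℕ) × ℕ) (β := ℕ))
  have hW4 := hW3.comp (Primrec.fst (α := ((α × ℕ) × ℕ) × ℕ) (β := ℕ))
  have hp4 := hp3.comp (Primrec.fst (α := ((α × ℕ) × ℕ) × ℕ) (β := ℕ))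
  have hb4 := hb3.comp (Primrec.fst (α := ((α × ℕ) × ℕ) × ℕ) (β := ℕ))
  have hg4 : Primrec fun x : (((α × ℕ) × ℕ) × ℕ) × ℕ => x.2 := Primrec.snd
  have hWi := pr_bit hW4 (Primrec.nat_add.comp (Primrec.nat_mul.comp (Primrec.nat_add.comp
    (Primrec.nat_mul.comp hp4 (pr_nB hc4)) hb4) (pr_nB hc4)) hg4)
  refine pr_imp ?_ ?_
  · refine pr_all (pr_nP hc1) (pr_all (pr_nB hc2) (pr_all (pr_nB hc3) ?_))
    refine pr_imp hWi ?_
    exact (pr_bit hC4 (Primrec.nat_add.comp (Primrec.nat_mul.comp hp4 (pr_nB hc4)) hb4)).and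
      (pr_StepWN hc4 hk4 hW4 hp4 hb4 hg4)
  · refine pr_all (pr_nP hc1) (pr_all (pr_nB hc2) (pr_all (pr_nB hc3) ?_))
    refine pr_imp hWi ?_
    exact pr_bit hC4 (Primrec.nat_add.comp (Primrec.nat_mul.comp hp4 (pr_nB hc4)) hg4)

theorem pr_AccN (hc : Primrec fc) {fp : α → ℕ} (hp : Primrec fp) :
    PrimrecPred fun x => AccN (fc x) (fp x) := by
  refine pr_ex (pr_nt hc) ?_
  have hc1 := hc.comp (Primrec.fst (α := α) (β := ℕ))
  have hp1 := hp.comp (Primrec.fst (α := α) (β := ℕ))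
  refine (pr_bit (Primrec.nat_mod.comp hp1 (pr_nM hc1)) Primrec.snd).and ?_
  refine pr_ex (Primrec.list_length.comp (Primrec.snd.comp (Primrec.snd.comp hc1))) ?_
  have hc2 := hc1.comp (Primrec.fst (α := α × ℕ) (β := ℕ))
  have hj2 : Primrec fun x : (α × ℕ) × ℕ => x.1.2 := Primrec.snd.comp Primrec.fst
  exact Primrec.eq.comp ((Primrec.list_getD 0).comp (Primrec.snd.comp (Primrec.snd.comp hc2))
    Primrec.snd) (Primrec.snd.comp (Primrec.snd.comp (pr_tr hc2 hj2)))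

theorem pr_TSLN (hc : Primrec fc) : PrimrecPred fun x => TSLN (fc x) := by
  refine pr_ex (pr_nQ hc) ?_
  -- κ
  have hc1 := hc.comp (Primrec.fst (α := α) (β := ℕ))
  have hk1 : Primrec fun x : α × ℕ => x.2 := Primrec.snd
  refine pr_ex (pr_pow (Primrec.const 2) (pr_nS hc1)) ?_
  -- R
  have hc2 := hc1.comp (Primrec.fst (α := α × ℕ) (β := ℕ))
  have hk2 := hk1.comp (Primrec.fst (α := α × ℕ) (β := ℕ))
  have hR2 : Primrec fun x : (α × ℕ) × ℕ => x.2 := Primrec.snd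
  refine pr_ex (pr_pow (Primrec.const 2) (Primrec.nat_mul.comp (pr_nP hc2) (pr_nB hc2))) ?_
  -- C
  have hc3 := hc2.comp (Primrec.fst (α := (α × ℕ) × ℕ) (β := ℕ))
  have hk3 := hk2.comp (Primrec.fst (α := (α × ℕ) × ℕ) (β := ℕ))
  have hR3 := hR2.comp (Primrec.fst (α := (α × ℕ) × ℕ) (β := ℕ))
  have hC3 : Primrec fun x : ((α × ℕ) × ℕ) × ℕ => x.2 := Primrec.snd
  -- one more
  have hc4 := hc3.comp (Primrec.fst (α := ((α × ℕ) × ℕ) × ℕ) (β := ℕ))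
  have hk4 := hk3.comp (Primrec.fst (α := ((α × ℕ) × ℕ) × ℕ) (β := ℕ))
  have hR4 := hR3.comp (Primrec.fst (α := ((α × ℕ) × ℕ) × ℕ) (β := ℕ))
  have hC4 := hC3.comp (Primrec.fst (α := ((α × ℕ) × ℕ) × ℕ) (β := ℕ))
  have hp4 : Primrec fun x : (((α × ℕ) × ℕ) × ℕ) × ℕ => x.2 := Primrec.snd
  -- two more
  have hc5 := hc4.comp (Primrec.fst (α := (((α × ℕ) × ℕ) × ℕ) × ℕ) (β := ℕ))
  have hk5 := hk4.comp (Primrec.fst (α := (((α × ℕ) × ℕ) × ℕ) × ℕ) (β := ℕ))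
  have hR5 := hR4.comp (Primrec.fst (α := (((α × ℕ) × ℕ) × ℕ) × ℕ) (β := ℕ))
  have hC5 := hC4.comp (Primrec.fst (α := (((α × ℕ) × ℕ) × ℕ) × ℕ) (β := ℕ))
  have hp5 := hp4.comp (Primrec.fst (α := (((α × ℕ) × ℕ) × ℕ) × ℕ) (β := ℕ))
  have hb5 : Primrec fun x : ((((α × ℕ) × ℕ) × ℕ) × ℕ) × ℕ => x.2 := Primrec.snd
  refine PrimrecPred.and ?_ (PrimrecPred.and ?_ (PrimrecPred.and (pr_Closed1N hc3 hk3 hC3)
    (PrimrecPred.and (pr_Closed2N hc3 hk3 hC3) ?_)))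
  · refine pr_all (pr_nP hc3) ?_
    exact pr_imp (pr_bit hk4 hp4) (pr_imp (pr_bit hR4 (Primrec.nat_div.comp hp4 (pr_nM hc4)))
      (pr_AccN hc4 hp4))
  · refine pr_all (pr_nS hc3) ?_
    refine pr_imp (Primrec.eq.comp (pr_rkN hc4 hp4) (Primrec.const 0)) ?_
    refine pr_all (pr_nP hc4) ?_
    refine pr_imp (Primrec.eq.comp (Primrec.nat_div.comp hb5 (pr_nM hc5)) hp5) ?_
    exact pr_iff (pr_bit hk5 hb5) (pr_Dl hc5 hp5 (Primrec.const 0) hb5)
  · refine pr_all (pr_nP hc3) (pr_all (pr_nB hc4) ?_)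
    refine pr_imp (pr_bit hC5 (Primrec.nat_add.comp (Primrec.nat_mul.comp hp5 (pr_nB hc5)) hb5)) ?_
    refine pr_imp (pr_AccN hc5 hp5) ?_
    exact (pr_bit hR5 (Primrec.nat_div.comp hp5 (pr_nM hc5))).and (pr_bit hb5 hk5).not

end

theorem TSLN_primrec : PrimrecPred TSLN := pr_TSLN Primrec.id

end MP4eb715
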