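import Pool.Agent.MP4eb715.Defs

/-!
Abstract theory: boundedness of the fragment heights, characterised by closed sets of types.
-/

namespace MP4eb715

variable {S : Type} {rk : S → ℕ} {P Q B : Type}

/-- Value of a ground tree in an algebra. -/
def val (δ : (a : S) → (Fin (rk a) → P) → P) : GTree rk → P
  | .node a c => δ a (fun i => val δ (c i))

section
variable (δ : (a : S) → (Fin (rk a) → P) → P) (ρ : P → S) (inQ : Q → P → Prop) (inB : B → Q → Prop)

/-- The obligations `os` on the children force the obligation `o` at the node. -/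
def Imp (a : S) (os : Fin (rk a) → Q) (o : Q) : Prop :=
  ∀ ps : Fin (rk a) → P, (∀ i, inQ (os i) (ps i)) → inQ o (δ a ps)

/-- Every way to force `o` uses an obligation from `bs`. -/
def Hit (a : S) (bs : Fin (rk a) → B) (o : Q) : Prop :=
  ∀ os : Fin (rk a) → Q, Imp δ inQ a os o → ∃ i, inB (bs i) (os i)

/-- The part of `κ` with root label `a` is contained in `o`. -/
def Cut (κ : Q) (a : S) (o : Q) : Prop := ∀ p, inQ κ p → ρ p = a → inQ o p

/-- The obligation `o` is high at a node labelled `a`. -/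
def Ok (κ : Q) (a : S) (bs gs : Fin (rk a) → B) (o : Q) : Prop :=
  Hit δ inQ inB a gs o ∧ (Cut ρ inQ κ a o → Hit δ inQ inB a bs κ)

/-- First closure condition. -/
def Closed1 (κ : Q) (C : P → B → Prop) : Prop :=
  ∀ (a : S) (ps : Fin (rk a) → P) (bs : Fin (rk a) → B), (∀ i, C (ps i) (bs i)) →
    ∀ b, (∀ o, inB b o → Ok δ ρ inQ inB κ a bs bs o) → C (δ a ps) b

/-- `(p, b, g)` is obtained in one step from `W`. -/
def StepW (κ : Q) (W : P → B → B → Prop) (p : P) (b g : B) : Prop :=
  ∃ (a : S) (ps : Fin (rk a) → P) (bs gs : Fin (rk a) → B), (∀ i, W (ps i) (bs i) (gs i)) ∧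
    p = δ a ps ∧ (∀ o, inB b o → Ok δ ρ inQ inB κ a bs bs o) ∧
    (∀ o, inB g o → Ok δ ρ inQ inB κ a bs gs o)

/-- Second closure condition. -/
def Closed2 (κ : Q) (C : P → B → Prop) : Prop :=
  ∀ W : P → B → B → Prop, (∀ p b g, W p b g → C p b ∧ StepW δ ρ inQ inB κ W p b g) →
    ∀ p b g, W p b g → C p g

/-- `Y κ N t o j`: the obligation `o` can be satisfied by a top part of `t` of height less than
`j`, everything below being decomposed into fragments of height less than `N`. -/
def Y (κ : Q) (N : ℕ) : GTree rk → Q → ℕ → Prop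
  | .node a c => fun o j => ∃ j', j = j' + 1 ∧
      (((∃ N', N = N' + 1 ∧ ∃ os : Fin (rk a) → Q, Imp δ inQ a os κ ∧ ∀ i, Y κ N (c i) (os i) N') ∧
        Cut ρ inQ κ a o) ∨
      (∃ os : Fin (rk a) → Q, Imp δ inQ a os o ∧ ∀ i, Y κ N (c i) (os i) j'))

end

section
variable {δ : (a : S) → (Fin (rk a) → P) → P} {ρ : P → S} {inQ : Q → P → Prop} {inB : B → Q → Prop}

theorem Y_mono {κ : Q} {N : ℕ} (t : GTree rk) : ∀ {o : Q} {j k : ℕ}, Y δ ρ inQ κ N t o j → j ≤ k →
    Y δ ρ inQ κ N t o k := by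
  induction t with
  | node a c ih =>
    intro o j k h hjk
    obtain ⟨j', rfl, h⟩ := h
    obtain ⟨k', rfl⟩ : ∃ k', k = k' + 1 := ⟨k - 1, by omega⟩
    refine ⟨k', rfl, ?_⟩
    rcases h with h | ⟨os, h1, h2⟩
    · exact Or.inl h
    · exact Or.inr ⟨os, h1, fun i => ih i (h2 i) (by omega)⟩

theorem not_Y_zero {κ : Q} {N : ℕ} (t : GTree rk) {o : Q} : ¬ Y δ ρ inQ κ N t o 0 := by
  cases t with
  | node a c => rintro ⟨j', h, -⟩; omega

/-- Real types. -/
def Real' (δ : (a : S) → (Fin (rk a) → P) → P) (ρ : P → S) (inQ : Q → P → Prop)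
    (inB : B → Q → Prop) (κ : Q) (p : P) (b : B) : Prop :=
  ∀ N, ∃ t : GTree rk, val δ t = p ∧ ∀ o, inB b o → ¬ Y δ ρ inQ κ N t o N

theorem not_Y_of_Ok {κ : Q} {N : ℕ} {a : S} {c : Fin (rk a) → GTree rk} {bs gs : Fin (rk a) → B}
    {j : ℕ}
    (hb : ∀ i o, inB (bs i) o → ¬ Y δ ρ inQ κ N (c i) o N)
    (hg : ∀ i o, inB (gs i) o → ¬ Y δ ρ inQ κ N (c i) o j) {o : Q}
    (hok : Ok δ ρ inQ inB κ a bs gs o) : ¬ Y δ ρ inQ κ N (.node a c) o (j + 1) := by
  rintro ⟨j', hj, h⟩
  obtain rfl : j = j' := by omega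
  rcases h with ⟨⟨N', rfl, os, h1, h2⟩, h3⟩ | ⟨os, h1, h2⟩
  · obtain ⟨i, hi⟩ := hok.2 h3 os h1
    exact hb i _ hi (Y_mono _ (h2 i) (by omega))
  · obtain ⟨i, hi⟩ := hok.1 os h1
    exact hg i _ hi (h2 i)

theorem closed1_real (κ : Q) : Closed1 δ ρ inQ inB κ (Real' δ ρ inQ inB κ) := by
  intro a ps bs h b hb N
  choose t ht using fun i => h i N
  refine ⟨.node a t, ?_, ?_⟩
  · simp only [val]
    congr 1
    funext i
    exact (ht i).1
  · intro o ho hY
    have hN : N ≠ 0 := by
      rintro rfl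
      exact not_Y_zero _ hY
    obtain ⟨N', rfl⟩ : ∃ N', N = N' + 1 := ⟨N - 1, by omega⟩
    refine not_Y_of_Ok (bs := bs) (gs := bs) (fun i => (ht i).2) ?_ (hb o ho) hY
    intro i o' ho' h'
    exact (ht i).2 o' ho' (Y_mono _ h' (by omega))

theorem closed2_real (κ : Q) : Closed2 δ ρ inQ inB κ (Real' δ ρ inQ inB κ) := by
  intro W hW
  have key : ∀ N j, j ≤ N → ∀ p b g, W p b g → ∃ t : GTree rk, val δ t = p ∧
      (∀ o, inB b o → ¬ Y δ ρ inQ κ N t o N) ∧ (∀ o, inB g o → ¬ Y δ ρ inQ κ N t o j) := by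
    intro N j
    induction j with
    | zero =>
      intro _ p b g h
      obtain ⟨t, h1, h2⟩ := (hW p b g h).1 N
      exact ⟨t, h1, h2, fun o _ => not_Y_zero _⟩
    | succ j ih =>
      intro hj p b g h
      obtain ⟨a, ps, bs, gs, h1, rfl, h3, h4⟩ := (hW p b g h).2
      choose t ht using fun i => ih (by omega) _ _ _ (h1 i)
      refine ⟨.node a t, ?_, ?_, ?_⟩
      · simp only [val]
        congr 1
        funext i
        exact (ht i).1
      · intro o ho hY
        obtain ⟨N', rfl⟩ : ∃ N', N = N' + 1 := ⟨N - 1, by omega⟩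
        refine not_Y_of_Ok (bs := bs) (gs := bs) (fun i => (ht i).2.1) ?_ (h3 o ho) hY
        intro i o' ho' h'
        exact (ht i).2.1 o' ho' (Y_mono _ h' (by omega))
      · intro o ho
        exact not_Y_of_Ok (bs := bs) (gs := gs) (fun i => (ht i).2.1) (fun i => (ht i).2.2)
          (h4 o ho)
  intro p b g h N
  obtain ⟨t, h1, -, h3⟩ := key N N le_rfl p b g h
  exact ⟨t, h1, h3⟩

/-- The iteration. -/
def WW (δ : (a : S) → (Fin (rk a) → P) → P) (ρ : P → S) (inQ : Q → P → Prop)
    (inB : B → Q → Prop) (κ : Q) (C : P → B → Prop) : ℕ → P → B → B → Prop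
  | 0 => fun p b _ => C p b
  | k + 1 => StepW δ ρ inQ inB κ (WW δ ρ inQ inB κ C k)

theorem StepW_mono {κ : Q} {W W' : P → B → B → Prop} (h : ∀ p b g, W p b g → W' p b g) {p : P}
    {b g : B} (hs : StepW δ ρ inQ inB κ W p b g) : StepW δ ρ inQ inB κ W' p b g := by
  obtain ⟨a, ps, bs, gs, h1, h2, h3, h4⟩ := hs
  exact ⟨a, ps, bs, gs, fun i => h _ _ _ (h1 i), h2, h3, h4⟩

theorem WW_succ {κ : Q} {C : P → B → Prop} (h1 : Closed1 δ ρ inQ inB κ C) (k : ℕ) :
    ∀ p b g, WW δ ρ inQ inB κ C (k + 1) p b g → WW δ ρ inQ inB κ C k p b g := by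
  induction k with
  | zero =>
    intro p b g h
    obtain ⟨a, ps, bs, gs, h2, rfl, h3, h4⟩ := h
    exact h1 a ps bs h2 b h3
  | succ k ih =>
    intro p b g h
    exact StepW_mono ih h

theorem WW_le {κ : Q} {C : P → B → Prop} (h1 : Closed1 δ ρ inQ inB κ C) {k l : ℕ} (hkl : k ≤ l) :
    ∀ p b g, WW δ ρ inQ inB κ C l p b g → WW δ ρ inQ inB κ C k p b g := by
  induction l, hkl using Nat.le_induction with
  | base => exact fun _ _ _ h => h
  | succ l _ ih => exact fun p b g h => ih p b g (WW_succ h1 l p b g h)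

theorem WW_stab [Finite P] [Finite B] {κ : Q} {C : P → B → Prop}
    (h1 : Closed1 δ ρ inQ inB κ C) :
    ∃ K, 0 < K ∧ ∀ p b g, WW δ ρ inQ inB κ C K p b g → WW δ ρ inQ inB κ C (K + 1) p b g := by
  have hanti : Antitone (fun k => {x : P × B × B | WW δ ρ inQ inB κ C k x.1 x.2.1 x.2.2}) := by
    intro k l hkl x hx
    exact WW_le h1 hkl _ _ _ hx
  have := (WellFoundedGT.monotone_chain_condition
    (α := (Set (P × B × B))ᵒᵈ) ⟨fun k => OrderDual.toDual
      {x : P × B × B | WW δ ρ inQ inB κ C k x.1 x.2.1 x.2.2}, fun k l hkl => hanti hkl⟩)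
  obtain ⟨n, hn⟩ := this
  refine ⟨n + 1, by omega, ?_⟩
  intro p b g h
  have e1 := hn (n + 1) (by omega)
  have e2 := hn (n + 1 + 1) (by omega)
  have e3 : {x : P × B × B | WW δ ρ inQ inB κ C (n + 1) x.1 x.2.1 x.2.2} =
      {x : P × B × B | WW δ ρ inQ inB κ C (n + 1 + 1) x.1 x.2.1 x.2.2} := by
    have := e1.symm.trans e2
    simpa using this
  have : (p, b, g) ∈ {x : P × B × B | WW δ ρ inQ inB κ C (n + 1) x.1 x.2.1 x.2.2} := h
  rw [e3] at this
  exact this

/-- Completeness. -/
theorem complete [Finite P] [Finite B] {κ : Q} {C : P → B → Prop}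
    (mkB : Set Q → B) (hmkB : ∀ s o, inB (mkB s) o ↔ o ∈ s)
    (h1 : Closed1 δ ρ inQ inB κ C) (h2 : Closed2 δ ρ inQ inB κ C) :
    ∃ N K, K ≤ N ∧ ∀ t : GTree rk, C (val δ t) (mkB {o | ¬ Y δ ρ inQ κ N t o K}) := by
  obtain ⟨K, hK0, hK⟩ := WW_stab (κ := κ) h1
  have hC2 : ∀ p b g, WW δ ρ inQ inB κ C K p b g → C p g := by
    apply h2
    intro p b g h
    refine ⟨WW_le h1 (Nat.zero_le K) p b g h, ?_⟩
    exact hK p b g h
  refine ⟨K + K, K, by omega, ?_⟩
  have key : ∀ t : GTree rk, ∀ k ≤ K, WW δ ρ inQ inB κ C k (val δ t)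
      (mkB {o | ¬ Y δ ρ inQ κ (K + K) t o (K + k)}) (mkB {o | ¬ Y δ ρ inQ κ (K + K) t o k}) := by
    intro t
    induction t with
    | node a c ih =>
      have hs : ∀ k, k + 1 ≤ K → WW δ ρ inQ inB κ C (k + 1) (val δ (.node a c))
          (mkB {o | ¬ Y δ ρ inQ κ (K + K) (.node a c) o (K + (k + 1))})
          (mkB {o | ¬ Y δ ρ inQ κ (K + K) (.node a c) o (k + 1)}) := by
        intro k hk
        refine ⟨a, fun i => val δ (c i), fun i => mkB {o | ¬ Y δ ρ inQ κ (K + K) (c i) o (K + k)},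
          fun i => mkB {o | ¬ Y δ ρ inQ κ (K + K) (c i) o k}, fun i => ih i k (by omega), rfl,
          ?_, ?_⟩
        · intro o ho
          rw [hmkB] at ho
          have ho' : ¬ Y δ ρ inQ κ (K + K) (.node a c) o (K + k + 1) := ho
          refine ⟨?_, ?_⟩
          · intro os hos
            by_contra hcon
            push Not at hcon
            apply ho'
            refine ⟨K + k, rfl, Or.inr ⟨os, hos, fun i => ?_⟩⟩
            have := hcon i
            rw [hmkB] at this
            simpa using this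
          · intro hcut os hos
            by_contra hcon
            push Not at hcon
            apply ho'
            refine ⟨K + k, rfl, Or.inl ⟨⟨K + K - 1, by omega, os, hos, fun i => ?_⟩, hcut⟩⟩
            have := hcon i
            rw [hmkB] at this
            have h3 : Y δ ρ inQ κ (K + K) (c i) (os i) (K + k) := by simpa using this
            exact Y_mono _ h3 (by omega)
        · intro o ho
          rw [hmkB] at ho
          have ho' : ¬ Y δ ρ inQ κ (K + K) (.node a c) o (k + 1) := ho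
          refine ⟨?_, ?_⟩
          · intro os hos
            by_contra hcon
            push Not at hcon
            apply ho'
            refine ⟨k, rfl, Or.inr ⟨os, hos, fun i => ?_⟩⟩
            have := hcon i
            rw [hmkB] at this
            simpa using this
          · intro hcut os hos
            by_contra hcon
            push Not at hcon
            apply ho'
            refine ⟨k, rfl, Or.inl ⟨⟨K + K - 1, by omega, os, hos, fun i => ?_⟩, hcut⟩⟩
            have := hcon i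
            rw [hmkB] at this
            have h3 : Y δ ρ inQ κ (K + K) (c i) (os i) (K + k) := by simpa using this
            exact Y_mono _ h3 (by omega)
      intro k hk
      rcases k with _ | k
      · obtain ⟨K', rfl⟩ : ∃ K', K = K' + 1 := ⟨K - 1, by omega⟩
        have := hC2 _ _ _ (hs K' le_rfl)
        exact this
      · exact hs k hk
  intro t
  have := key t 0 (by omega)
  exact this

end

end MP4eb715
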