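import Pool.Agent.MP4eb715.Gram
import Pool.Agent.MP4eb715.Num

/-!
The numerical criterion is equivalent to the abstract one.
-/

namespace MP4eb715

/-! ### Bits -/

theorem bit_iff (m i : ℕ) : bit m i ↔ m.testBit i = true := by
  rw [Nat.testBit_eq_decide_div_mod_eq, decide_eq_true_iff, bit]

theorem exists_mask (n : ℕ) (f : ℕ → Prop) : ∃ m < 2 ^ n, ∀ i < n, (bit m i ↔ f i) := by
  induction n with
  | zero => exact ⟨0, by simp, fun i hi => absurd hi (by omega)⟩
  | succ n ih =>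
    obtain ⟨m, hm, h⟩ := ih
    by_cases hf : f n
    · refine ⟨2 ^ n + m, by rw [pow_succ]; omega, fun i hi => ?_⟩
      rw [bit_iff]
      rcases Nat.lt_succ_iff_lt_or_eq.1 hi with h1 | rfl
      · rw [Nat.testBit_two_pow_add_gt h1, ← bit_iff]
        exact h i h1
      · rw [Nat.testBit_two_pow_add_eq, Nat.testBit_lt_two_pow hm]
        simpa using hf
    · refine ⟨m, by rw [pow_succ]; omega, fun i hi => ?_⟩
      rcases Nat.lt_succ_iff_lt_or_eq.1 hi with h1 | rfl
      · exact h i h1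
      · rw [bit_iff, Nat.testBit_lt_two_pow hm]
        simpa using hf

theorem bit_ext {n m m' : ℕ} (hm : m < 2 ^ n) (hm' : m' < 2 ^ n)
    (h : ∀ i < n, (bit m i ↔ bit m' i)) : m = m' := by
  apply Nat.eq_of_testBit_eq
  intro i
  rcases lt_or_ge i n with hi | hi
  · have := h i hi
    rw [bit_iff, bit_iff] at this
    exact Bool.eq_iff_iff.2 this
  · rw [Nat.testBit_lt_two_pow (lt_of_lt_of_le hm (Nat.pow_le_pow_right (by omega) hi)),
      Nat.testBit_lt_two_pow (lt_of_lt_of_le hm' (Nat.pow_le_pow_right (by omega) hi))]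

/-! ### Tuples -/

/-- The tuple with code `m`. -/
def tup {n : ℕ} (k : ℕ) (hn : 0 < n) (m : ℕ) : Fin k → Fin n :=
  fun i => ⟨dig n m i, Nat.mod_lt _ hn⟩

theorem exists_tup {n k : ℕ} (hn : 0 < n) (f : Fin k → Fin n) : ∃ m < n ^ k, tup k hn m = f := by
  refine ⟨(finFunctionFinEquiv f).val, (finFunctionFinEquiv f).2, ?_⟩
  have h := (finFunctionFinEquiv (m := n) (n := k)).symm_apply_apply f
  funext i
  have h2 := congrFun h i
  rw [← h2]
  rfl

theorem forall_tup {n k : ℕ} (hn : 0 < n) {φ : (Fin k → Fin n) → Prop} :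
    (∀ f, φ f) ↔ ∀ m < n ^ k, φ (tup k hn m) := by
  constructor
  · intro h m _
    exact h _
  · intro h f
    obtain ⟨m, hm, rfl⟩ := exists_tup hn f
    exact h m hm

theorem exists_tup_iff {n k : ℕ} (hn : 0 < n) {φ : (Fin k → Fin n) → Prop} :
    (∃ f, φ f) ↔ ∃ m < n ^ k, φ (tup k hn m) := by
  constructor
  · rintro ⟨f, hf⟩
    obtain ⟨m, hm, rfl⟩ := exists_tup hn f
    exact ⟨m, hm, hf⟩
  · rintro ⟨m, _, h⟩
    exact ⟨_, h⟩

/-! ### The instance -/

variable (c : Code)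

theorem nM_pos : 0 < nM c := Nat.two_pow_pos _
theorem nQ_pos : 0 < nQ c := Nat.two_pow_pos _
theorem nB_pos : 0 < nB c := Nat.two_pow_pos _

theorem nP_pos (a : Fin c.1.length) : 0 < nP c :=
  Nat.mul_pos (by have := a.2; unfold nS; omega) (nM_pos c)

theorem rkN_eq (a : Fin c.1.length) : rkN c a = arity c a := by
  unfold rkN arity
  simp

/-- Membership of states in obligations. -/
def inQ (o : Fin (nQ c)) (p : Fin (nP c)) : Prop := bit o p

/-- Membership of obligations in sets of obligations. -/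
def inB (b : Fin (nB c)) (o : Fin (nQ c)) : Prop := bit b o

/-- The root label of a state. -/
def rho (p : Fin (nP c)) : Fin c.1.length :=
  ⟨p / nM c, Nat.div_lt_of_lt_mul (by rw [mul_comm]; exact p.2)⟩

/-- Applicability of a transition. -/
def AppF (a : Fin c.1.length) (ps : Fin (arity c a) → Fin (nP c)) (j : ℕ) : Prop :=
  (tr c j).1 = a ∧ (tr c j).2.1.length = arity c a ∧
    ∀ i : Fin (arity c a), ∃ j' < nt c, bit (ps i % nM c) j' ∧
      (tr c j').2.2 = (tr c j).2.1.getD i 0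

/-- The set of applicable transitions as a number. -/
noncomputable def maskA (a : Fin c.1.length) (ps : Fin (arity c a) → Fin (nP c)) : ℕ :=
  (exists_mask (nt c) (AppF c a ps)).choose

theorem maskA_lt (a : Fin c.1.length) (ps : Fin (arity c a) → Fin (nP c)) :
    maskA c a ps < nM c := (exists_mask (nt c) (AppF c a ps)).choose_spec.1

theorem bit_maskA (a : Fin c.1.length) (ps : Fin (arity c a) → Fin (nP c)) {j : ℕ}
    (hj : j < nt c) : bit (maskA c a ps) j ↔ AppF c a ps j :=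
  (exists_mask (nt c) (AppF c a ps)).choose_spec.2 j hj

/-- The transition function of the determinised automaton. -/
noncomputable def del (a : Fin c.1.length) (ps : Fin (arity c a) → Fin (nP c)) : Fin (nP c) :=
  ⟨a * nM c + maskA c a ps, by
    have h1 := maskA_lt c a ps
    have h2 : (a : ℕ) + 1 ≤ nS c := a.2
    calc a * nM c + maskA c a ps < a * nM c + nM c := by omega
      _ = (a + 1) * nM c := by ring
      _ ≤ nS c * nM c := Nat.mul_le_mul_right _ h2⟩

theorem del_div (a : Fin c.1.length) (ps : Fin (arity c a) → Fin (nP c)) :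
    (del c a ps : ℕ) / nM c = a := by
  have h1 := maskA_lt c a ps
  show (a * nM c + maskA c a ps) / nM c = a
  rw [Nat.add_comm, Nat.add_mul_div_right _ _ (nM_pos c), Nat.div_eq_of_lt h1, zero_add]

theorem del_mod (a : Fin c.1.length) (ps : Fin (arity c a) → Fin (nP c)) :
    (del c a ps : ℕ) % nM c = maskA c a ps := by
  have h1 := maskA_lt c a ps
  show (a * nM c + maskA c a ps) % nM c = _
  rw [Nat.add_comm, Nat.add_mul_mod_self_right, Nat.mod_eq_of_lt h1]

theorem rho_del (a : Fin c.1.length) (ps : Fin (arity c a) → Fin (nP c)) :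
    rho c (del c a ps) = a := Fin.ext (del_div c a ps)

variable {c}

theorem App_iff (a : Fin c.1.length) (hP : 0 < nP c) (m j : ℕ) :
    App c a m j ↔ AppF c a (tup (arity c a) hP m) j := by
  unfold App AppF
  rw [rkN_eq, Fin.forall_iff]
  rfl

theorem Dl_iff (a : Fin c.1.length) (hP : 0 < nP c) (m : ℕ) (p : Fin (nP c)) :
    Dl c a m p ↔ p = del c a (tup (arity c a) hP m) := by
  constructor
  · rintro ⟨h1, h2⟩
    apply Fin.ext
    have h3 : (p : ℕ) % nM c = (del c a (tup (arity c a) hP m) : ℕ) % nM c := by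
      rw [del_mod]
      refine bit_ext (Nat.mod_lt _ (nM_pos c)) (maskA_lt c _ _) ?_
      intro i hi
      rw [h2 i hi, bit_maskA _ _ _ hi, App_iff a hP]
    rw [← Nat.div_add_mod (p : ℕ) (nM c), h1, h3, ← del_div c a (tup (arity c a) hP m),
      Nat.div_add_mod]
  · rintro rfl
    refine ⟨del_div c _ _, ?_⟩
    intro j hj
    rw [del_mod, bit_maskA _ _ _ hj, App_iff a hP]

theorem ImpN_iff (a : Fin c.1.length) (mO : ℕ) (o : Fin (nQ c)) :
    ImpN c a mO o ↔ Imp (del c) (inQ c) a (tup (arity c a) (nQ_pos c) mO) o := by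
  have hP := nP_pos c a
  unfold ImpN Imp
  rw [forall_tup hP, rkN_eq]
  refine forall_congr' fun mp => imp_congr_right fun _ => ?_
  rw [Fin.forall_iff]
  refine imp_congr Iff.rfl ?_
  constructor
  · intro h
    exact h _ (del c a (tup (arity c a) hP mp)).2 ((Dl_iff a hP mp _).2 rfl)
  · intro h p hp hD
    have := (Dl_iff a hP mp ⟨p, hp⟩).1 hD
    rw [← this] at h
    exact h

theorem HitN_iff (a : Fin c.1.length) (mB : ℕ) (o : Fin (nQ c)) :
    HitN c a mB o ↔ Hit (del c) (inQ c) (inB c) a (tup (arity c a) (nB_pos c) mB) o := by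
  unfold HitN Hit
  rw [forall_tup (nQ_pos c), rkN_eq]
  refine forall_congr' fun mO => imp_congr_right fun _ => ?_
  rw [ImpN_iff, Fin.exists_iff]
  refine imp_congr Iff.rfl ?_
  constructor
  · rintro ⟨i, hi, h⟩
    exact ⟨i, hi, h⟩
  · rintro ⟨i, hi, h⟩
    exact ⟨i, hi, h⟩

theorem CutN_iff (κ : Fin (nQ c)) (a : Fin c.1.length) (o : Fin (nQ c)) :
    CutN c κ a o ↔ Cut (rho c) (inQ c) κ a o := by
  unfold CutN Cut
  rw [Fin.forall_iff]
  refine forall_congr' fun p => forall_congr' fun hp => imp_congr Iff.rfl ?_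
  refine imp_congr ?_ Iff.rfl
  rw [Fin.ext_iff]
  rfl

theorem OkN_iff (κ : Fin (nQ c)) (a : Fin c.1.length) (mB mG : ℕ) (o : Fin (nQ c)) :
    OkN c κ a mB mG o ↔ Ok (del c) (rho c) (inQ c) (inB c) κ a (tup (arity c a) (nB_pos c) mB)
      (tup (arity c a) (nB_pos c) mG) o := by
  unfold OkN Ok
  rw [HitN_iff, HitN_iff, CutN_iff]

theorem BelowN_iff (κ : Fin (nQ c)) (a : Fin c.1.length) (mB mG : ℕ) (b : Fin (nB c)) :
    BelowN c κ a mB mG b ↔ ∀ o, inB c b o → Ok (del c) (rho c) (inQ c) (inB c) κ a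
      (tup (arity c a) (nB_pos c) mB) (tup (arity c a) (nB_pos c) mG) o := by
  unfold BelowN
  rw [Fin.forall_iff]
  refine forall_congr' fun o => forall_congr' fun ho => imp_congr Iff.rfl ?_
  exact OkN_iff κ a mB mG ⟨o, ho⟩

/-- The relation coded by a number. -/
def relC (c : Code) (C : ℕ) (p : Fin (nP c)) (b : Fin (nB c)) : Prop := bit C (p * nB c + b)

/-- The ternary relation coded by a number. -/
def relW (c : Code) (W : ℕ) (p : Fin (nP c)) (b g : Fin (nB c)) : Prop :=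
  bit W ((p * nB c + b) * nB c + g)

theorem idx_lt {m n p b : ℕ} (hp : p < m) (hb : b < n) : p * n + b < m * n := by
  calc p * n + b < p * n + n := by omega
    _ = (p + 1) * n := by ring
    _ ≤ m * n := Nat.mul_le_mul_right _ hp

theorem exists_relC (C : Fin (nP c) → Fin (nB c) → Prop) :
    ∃ m < 2 ^ (nP c * nB c), relC c m = C := by
  obtain ⟨m, hm, h⟩ := exists_mask (nP c * nB c) (fun i => ∃ (p : Fin (nP c)) (b : Fin (nB c)),
    i = p * nB c + b ∧ C p b)
  refine ⟨m, hm, ?_⟩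
  funext p b
  apply propext
  unfold relC
  rw [h _ (idx_lt p.2 b.2)]
  constructor
  · rintro ⟨p', b', h1, h2⟩
    have h3 : (b : ℕ) = b' := by
      have := congrArg (· % nB c) h1
      simpa [Nat.add_comm, Nat.add_mul_mod_self_right, Nat.mod_eq_of_lt b.2,
        Nat.mod_eq_of_lt b'.2] using this
    have h4 : (p : ℕ) = p' := by
      have h5 : (p : ℕ) * nB c = p' * nB c := by omega
      exact Nat.eq_of_mul_eq_mul_right (nB_pos c) h5
    rwa [Fin.ext h3, Fin.ext h4]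
  · intro h
    exact ⟨p, b, rfl, h⟩

theorem exists_relW (W : Fin (nP c) → Fin (nB c) → Fin (nB c) → Prop) :
    ∃ m < 2 ^ (nP c * nB c * nB c), relW c m = W := by
  obtain ⟨m, hm, h⟩ := exists_mask (nP c * nB c * nB c) (fun i => ∃ (p : Fin (nP c))
    (b g : Fin (nB c)), i = (p * nB c + b) * nB c + g ∧ W p b g)
  refine ⟨m, hm, ?_⟩
  funext p b g
  apply propext
  unfold relW
  rw [h _ (idx_lt (idx_lt p.2 b.2) g.2)]
  constructor
  · rintro ⟨p', b', g', h1, h2⟩
    have h3 : (g : ℕ) = g' := by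
      have := congrArg (· % nB c) h1
      simpa [Nat.add_comm, Nat.add_mul_mod_self_right, Nat.mod_eq_of_lt g.2,
        Nat.mod_eq_of_lt g'.2] using this
    have h4 : (p : ℕ) * nB c + b = p' * nB c + b' := by
      have h5 : (p * nB c + b) * nB c = (p' * nB c + b') * nB c := by omega
      exact Nat.eq_of_mul_eq_mul_right (nB_pos c) h5
    have h5 : (b : ℕ) = b' := by
      have := congrArg (· % nB c) h4
      simpa [Nat.add_comm, Nat.add_mul_mod_self_right, Nat.mod_eq_of_lt b.2,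
        Nat.mod_eq_of_lt b'.2] using this
    have h6 : (p : ℕ) = p' := by
      have h7 : (p : ℕ) * nB c = p' * nB c := by omega
      exact Nat.eq_of_mul_eq_mul_right (nB_pos c) h7
    rwa [Fin.ext h3, Fin.ext h5, Fin.ext h6]
  · intro h
    exact ⟨p, b, g, rfl, h⟩

theorem Closed1N_iff (κ : Fin (nQ c)) (C : ℕ) :
    Closed1N c κ C ↔ Closed1 (del c) (rho c) (inQ c) (inB c) κ (relC c C) := by
  unfold Closed1N Closed1
  rw [Fin.forall_iff]
  refine forall_congr' fun a => forall_congr' fun ha => ?_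
  have hP := nP_pos c ⟨a, ha⟩
  rw [forall_tup hP, rkN_eq c ⟨a, ha⟩]
  refine forall_congr' fun mp => imp_congr_right fun _ => ?_
  rw [forall_tup (nB_pos c)]
  refine forall_congr' fun mB => imp_congr_right fun _ => ?_
  rw [Fin.forall_iff]
  refine imp_congr Iff.rfl ?_
  rw [Fin.forall_iff]
  refine forall_congr' fun b => forall_congr' fun hb => ?_
  refine imp_congr (BelowN_iff κ ⟨a, ha⟩ mB mB ⟨b, hb⟩) ?_
  constructor
  · intro h
    exact h _ (del c ⟨a, ha⟩ (tup _ hP mp)).2 ((Dl_iff ⟨a, ha⟩ hP mp _).2 rfl)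
  · intro h p hp hD
    have := (Dl_iff ⟨a, ha⟩ hP mp ⟨p, hp⟩).1 hD
    rw [← this] at h
    exact h

theorem StepWN_iff (κ : Fin (nQ c)) (W : ℕ) (p : Fin (nP c)) (b g : Fin (nB c)) :
    StepWN c κ W p b g ↔ StepW (del c) (rho c) (inQ c) (inB c) κ (relW c W) p b g := by
  unfold StepWN StepW
  rw [Fin.exists_iff]
  constructor
  · rintro ⟨a, ha, mp, hmp, mB, hmB, mG, hmG, h1, h2, h3, h4⟩
    have hP := nP_pos c ⟨a, ha⟩
    refine ⟨a, ha, tup _ hP mp, tup _ (nB_pos c) mB, tup _ (nB_pos c) mG, ?_, ?_, ?_, ?_⟩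
    · intro i
      exact h1 i (by have := i.2; rw [rkN_eq c ⟨a, ha⟩]; exact this)
    · exact (Dl_iff ⟨a, ha⟩ hP mp p).1 h2
    · exact (BelowN_iff κ ⟨a, ha⟩ mB mB b).1 h3
    · exact (BelowN_iff κ ⟨a, ha⟩ mB mG g).1 h4
  · rintro ⟨a, ha, ps, bs, gs, h1, h2, h3, h4⟩
    have hP := nP_pos c ⟨a, ha⟩
    obtain ⟨mp, hmp, rfl⟩ := exists_tup hP ps
    obtain ⟨mB, hmB, rfl⟩ := exists_tup (nB_pos c) bs
    obtain ⟨mG, hmG, rfl⟩ := exists_tup (nB_pos c) gs
    have hrk := rkN_eq c ⟨a, ha⟩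
    refine ⟨a, ha, mp, ?_, mB, ?_, mG, ?_, ?_, ?_, ?_, ?_⟩
    · rw [show rkN c a = arity c ⟨a, ha⟩ from hrk]; exact hmp
    · rw [show rkN c a = arity c ⟨a, ha⟩ from hrk]; exact hmB
    · rw [show rkN c a = arity c ⟨a, ha⟩ from hrk]; exact hmG
    · intro i hi
      rw [show rkN c a = arity c ⟨a, ha⟩ from hrk] at hi
      exact h1 ⟨i, hi⟩
    · exact (Dl_iff ⟨a, ha⟩ hP mp p).2 h2
    · exact (BelowN_iff κ ⟨a, ha⟩ mB mB b).2 h3
    · exact (BelowN_iff κ ⟨a, ha⟩ mB mG g).2 h4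

theorem Closed2N_iff (κ : Fin (nQ c)) (C : ℕ) :
    Closed2N c κ C ↔ Closed2 (del c) (rho c) (inQ c) (inB c) κ (relC c C) := by
  constructor
  · intro h W
    obtain ⟨m, hm, rfl⟩ := exists_relW W
    intro h1 p b g hW
    refine h m hm ?_ p p.2 b b.2 g g.2 hW
    intro p hp b hb g hg h2
    obtain ⟨h3, h4⟩ := h1 ⟨p, hp⟩ ⟨b, hb⟩ ⟨g, hg⟩ h2
    exact ⟨h3, (StepWN_iff κ m ⟨p, hp⟩ ⟨b, hb⟩ ⟨g, hg⟩).2 h4⟩
  · intro h m hm h1 p hp b hb g hg h2
    refine h (relW c m) ?_ ⟨p, hp⟩ ⟨b, hb⟩ ⟨g, hg⟩ h2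
    intro p b g h3
    obtain ⟨h4, h5⟩ := h1 p p.2 b b.2 g g.2 h3
    exact ⟨h4, (StepWN_iff κ m p b g).1 h5⟩

/-- Acceptance. -/
def AccF (c : Code) (p : Fin (nP c)) : Prop := AccN c p

theorem TSLN_iff : TSLN c ↔ IsTSL {t : GTree (arity c) | AccF c (val (del c) t)} := by
  have hmkQ : ∀ s : Set (Fin (nP c)), ∃ o : Fin (nQ c), ∀ p, inQ c o p ↔ p ∈ s := by
    intro s
    obtain ⟨m, hm, h⟩ := exists_mask (nP c) (fun i => ∃ hi : i < nP c, (⟨i, hi⟩ : Fin _) ∈ s)
    refine ⟨⟨m, hm⟩, fun p => ?_⟩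
    unfold inQ
    rw [h p p.2]
    exact ⟨fun ⟨_, h⟩ => h, fun h => ⟨p.2, h⟩⟩
  have hmkB : ∀ s : Set (Fin (nQ c)), ∃ o : Fin (nB c), ∀ p, inB c o p ↔ p ∈ s := by
    intro s
    obtain ⟨m, hm, h⟩ := exists_mask (nQ c) (fun i => ∃ hi : i < nQ c, (⟨i, hi⟩ : Fin _) ∈ s)
    refine ⟨⟨m, hm⟩, fun p => ?_⟩
    unfold inB
    rw [h p p.2]
    exact ⟨fun ⟨_, h⟩ => h, fun h => ⟨p.2, h⟩⟩
  choose mkQ hmkQ using hmkQ
  choose mkB hmkB using hmkB
  rw [isTSL_iff (δ := del c) (ρ := rho c) (inQ := inQ c) (inB := inB c) mkQ hmkQ mkB hmkB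
    (rho_del c) (AccF c)]
  constructor
  · rintro ⟨κ, hκ, R, hR, C, hC, h1, h2, h3, h4, h5⟩
    refine ⟨⟨κ, hκ⟩, fun a => bit R a, relC c C, ?_, ?_, (Closed1N_iff ⟨κ, hκ⟩ C).1 h3,
      (Closed2N_iff ⟨κ, hκ⟩ C).1 h4, ?_⟩
    · intro p hp hRp
      exact h1 p p.2 hp hRp
    · intro a ha p hp
      have hP := nP_pos c a
      have h6 := h2 a a.2 (by rw [rkN_eq]; exact ha) p p.2 (by rw [← hp]; rfl)
      rw [Dl_iff a hP 0 p] at h6
      refine h6.trans ?_
      constructor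
      · intro h7 ps
        rw [h7]
        congr 1
        funext i
        exact absurd i.2 (by omega)
      · intro h7
        exact h7 _
    · intro p b hC' hacc
      exact h5 p p.2 b b.2 hC' hacc
  · rintro ⟨κ, R, C, h1, h2, h3, h4, h5⟩
    obtain ⟨mC, hmC, rfl⟩ := exists_relC C
    obtain ⟨mR, hmR, hR⟩ := exists_mask (nS c) (fun i => ∃ hi : i < c.1.length, R ⟨i, hi⟩)
    have hR' : ∀ p : Fin (nP c), bit mR (p / nM c) ↔ R (rho c p) := by
      intro p
      refine (hR _ (rho c p).2).trans ?_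
      exact ⟨fun ⟨_, h⟩ => h, fun h => ⟨(rho c p).2, h⟩⟩
    refine ⟨κ, κ.2, mR, hmR, mC, hmC, ?_, ?_, (Closed1N_iff κ mC).2 h3, (Closed2N_iff κ mC).2 h4,
      ?_⟩
    · intro p hp hκp hRp
      exact h1 ⟨p, hp⟩ hκp ((hR' ⟨p, hp⟩).1 hRp)
    · intro a ha hrk p hp hpa
      have hP := nP_pos c ⟨a, ha⟩
      have h6 := h2 ⟨a, ha⟩ (by rw [← rkN_eq]; exact hrk) ⟨p, hp⟩ (Fin.ext hpa)
      have h7 := Dl_iff ⟨a, ha⟩ hP 0 ⟨p, hp⟩
      refine (Iff.trans h6 ?_).trans h7.symm
      constructor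
      · intro h8
        exact h8 _
      · intro h8 ps
        rw [h8]
        congr 1
        funext i
        have hlt := i.2
        have h9 : arity c ⟨a, ha⟩ = 0 := by rw [← rkN_eq]; exact hrk
        exact absurd hlt (by omega)
    · intro p hp b hb hC' hacc
      obtain ⟨h6, h7⟩ := h5 ⟨p, hp⟩ ⟨b, hb⟩ hC' hacc
      exact ⟨(hR' ⟨p, hp⟩).2 h6, h7⟩

/-! ### The automaton -/

theorem tr_mem {j : ℕ} (hj : j < nt c) : tr c j ∈ c.2.1 := by
  unfold tr
  rw [List.getD_eq_getElem _ _ hj]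
  exact List.getElem_mem _

theorem exists_tr {x : ℕ × List ℕ × ℕ} (hx : x ∈ c.2.1) : ∃ j < nt c, tr c j = x := by
  obtain ⟨j, hj, h⟩ := List.mem_iff_getElem.1 hx
  exact ⟨j, hj, by unfold tr; rw [List.getD_eq_getElem _ _ hj]; exact h⟩

theorem run_iff (t : GTree (arity c)) : ∀ q, Run c t q ↔
    ∃ j < nt c, bit ((val (del c) t).val % nM c) j ∧ (tr c j).2.2 = q := by
  induction t with
  | node a t ih =>
    intro q
    rw [val, del_mod]
    constructor
    · intro h
      generalize hT : GTree.node a t = T at h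
      cases h with
      | node b t' qs q htr hlen hr =>
        injection hT with h1 h2
        subst h1
        have h3 := eq_of_heq h2
        subst h3
        obtain ⟨j, hj, hj'⟩ := exists_tr htr
        refine ⟨j, hj, ?_, by rw [hj']⟩
        rw [bit_maskA _ _ _ hj]
        refine ⟨by rw [hj'], by rw [hj']; exact hlen, ?_⟩
        intro i
        obtain ⟨j', h4, h5, h6⟩ := (ih i _).1 (hr i)
        refine ⟨j', h4, h5, ?_⟩
        have hlt : (i : ℕ) < qs.length := by rw [hlen]; exact i.2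
        rw [h6, hj', List.getD_eq_getElem _ _ hlt]
        simp
    · rintro ⟨j, hj, h1, rfl⟩
      rw [bit_maskA _ _ _ hj] at h1
      obtain ⟨h1, h2, h3⟩ := h1
      refine Run.node a t (tr c j).2.1 (tr c j).2.2 ?_ h2 ?_
      · have := tr_mem hj
        rw [← h1]
        exact this
      · intro i
        rw [ih i]
        obtain ⟨j', h4, h5, h6⟩ := h3 i
        refine ⟨j', h4, h5, ?_⟩
        rw [h6]
        have hlt : (i : ℕ) < (tr c j).2.1.length := by rw [h2]; exact i.2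
        rw [List.getD_eq_getElem _ _ hlt]
        simp

theorem lang_eq : lang c = {t : GTree (arity c) | AccF c (val (del c) t)} := by
  ext t
  unfold lang AccF AccN
  simp only [Set.mem_ofPred_eq]
  constructor
  · rintro ⟨q, hq, h⟩
    obtain ⟨j, hj, h1, h2⟩ := (run_iff t q).1 h
    obtain ⟨k, hk, h3⟩ := List.mem_iff_getElem.1 hq
    refine ⟨j, hj, h1, k, hk, ?_⟩
    rw [List.getD_eq_getElem _ _ hk, h3, h2]
  · rintro ⟨j, hj, h1, k, hk, h2⟩
    refine ⟨(tr c j).2.2, ?_, (run_iff t _).2 ⟨j, hj, h1, rfl⟩⟩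
    rw [← h2, List.getD_eq_getElem _ _ hk]
    exact List.getElem_mem _

theorem TSLN_iff_isTSL : TSLN c ↔ IsTSL (lang c) := by
  rw [TSLN_iff, lang_eq]

/-- Being a tree substitution language is decidable for regular tree languages. -/
theorem primrecPred_isTSL : PrimrecPred fun c : Code => IsTSL (lang c) :=
  TSLN_primrec.of_eq fun _ => TSLN_iff_isTSL

theorem computablePred_isTSL : ComputablePred fun c : Code => IsTSL (lang c) :=
  primrecPred_isTSL.computablePred

end MP4eb715
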